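import Mathlib

/-!
Domino tilings of the Aztec diamond with a knight's-move pair of cells removed.

The cell `(x, y) : ℤ × ℤ` stands for the closed unit square `[x, x+1] × [y, y+1]`,
whose centre is `(x + 1/2, y + 1/2)`.
-/

namespace Pool.Agent.Work.MP_b90a94_co

/-- The Aztec diamond of order `n`: all cells whose centre `(x + 1/2, y + 1/2)` satisfies
`|x + 1/2| + |y + 1/2| ≤ n`. -/
def aztec (n : ℕ) : Set (ℤ × ℤ) :=
  {c | |(c.1 : ℚ) + 1 / 2| + |(c.2 : ℚ) + 1 / 2| ≤ (n : ℚ)}

/-- The region `D_n`: the Aztec diamond of order `n` without the two cells with centres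
`(-1/2, -1/2)` and `(1/2, 3/2)`. -/
def knightRegion (n : ℕ) : Set (ℤ × ℤ) := aztec n \ {(-1, -1), (0, 1)}

/-- A domino: two cells sharing an edge (horizontally or vertically adjacent). -/
def IsDomino (d : Set (ℤ × ℤ)) : Prop :=
  ∃ x y : ℤ, d = {(x, y), (x + 1, y)} ∨ d = {(x, y), (x, y + 1)}

/-- A domino tiling of a region: a set of pairwise disjoint dominoes whose union is the region. -/
def IsTiling (R : Set (ℤ × ℤ)) (P : Set (Set (ℤ × ℤ))) : Prop :=
  (∀ d ∈ P, IsDomino d) ∧ P.PairwiseDisjoint id ∧ ⋃₀ P = R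

/-- The number of domino tilings of `D_n`. -/
noncomputable def T (n : ℕ) : ℕ := Set.ncard {P : Set (Set (ℤ × ℤ)) | IsTiling (knightRegion n) P}

/-- The normalised central binomial coefficient `C(2t, t) / 4^t`. -/
def cb (t : ℕ) : ℚ := (Nat.choose (2 * t) t : ℚ) / 4 ^ t

end Pool.Agent.Work.MP_b90a94_co
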