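import Mathlib

/-! Krawtchouk numbers as coefficients of `(1-X)^a (1+X)^b`. -/

namespace Pool.Agent.Work.MP_b90a94_co

open Finset Polynomial

/-- coefficient of `X^k` in `(1-X)^a (1+X)^b` -/
noncomputable def cc (a b k : ℕ) : ℤ := (((1 - X) ^ a * (1 + X) ^ b : ℤ[X])).coeff k

/-- Krawtchouk number -/
noncomputable def kr (N a b : ℕ) : ℤ := cc b (N - b) a

lemma cc_left_succ (a b k : ℕ) : cc (a + 1) b (k + 1) = cc a b (k + 1) - cc a b k := by
  unfold cc
  have : ((1 - X) ^ (a + 1) * (1 + X) ^ b : ℤ[X]) =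
      (1 - X) ^ a * (1 + X) ^ b - ((1 - X) ^ a * (1 + X) ^ b) * X := by ring
  rw [this, coeff_sub, coeff_mul_X]

lemma cc_left_zero (a b : ℕ) : cc (a + 1) b 0 = cc a b 0 := by
  unfold cc
  have : ((1 - X) ^ (a + 1) * (1 + X) ^ b : ℤ[X]) =
      (1 - X) ^ a * (1 + X) ^ b - ((1 - X) ^ a * (1 + X) ^ b) * X := by ring
  rw [this, coeff_sub, mul_coeff_zero _ X]; simp

lemma cc_right_succ (a b k : ℕ) : cc a (b + 1) (k + 1) = cc a b (k + 1) + cc a b k := by
  unfold cc
  have : ((1 - X) ^ a * (1 + X) ^ (b + 1) : ℤ[X]) =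
      (1 - X) ^ a * (1 + X) ^ b + ((1 - X) ^ a * (1 + X) ^ b) * X := by ring
  rw [this, coeff_add, coeff_mul_X]

lemma cc_right_zero (a b : ℕ) : cc a (b + 1) 0 = cc a b 0 := by
  unfold cc
  have : ((1 - X) ^ a * (1 + X) ^ (b + 1) : ℤ[X]) =
      (1 - X) ^ a * (1 + X) ^ b + ((1 - X) ^ a * (1 + X) ^ b) * X := by ring
  rw [this, coeff_add, mul_coeff_zero _ X]; simp

lemma cc_zero_zero (k : ℕ) : cc 0 0 k = if k = 0 then 1 else 0 := by
  unfold cc; simp [coeff_one]

/-- vanishing beyond the degree -/
lemma cc_eq_zero (a b k : ℕ) (h : a + b < k) : cc a b k = 0 := by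
  induction a generalizing k with
  | zero =>
    induction b generalizing k with
    | zero => rw [cc_zero_zero, if_neg (by omega)]
    | succ b ih =>
      obtain ⟨k, rfl⟩ : ∃ k', k = k' + 1 := ⟨k - 1, by omega⟩
      rw [cc_right_succ, ih _ (by omega), ih _ (by omega), add_zero]
  | succ a ih =>
    obtain ⟨k, rfl⟩ : ∃ k', k = k' + 1 := ⟨k - 1, by omega⟩
    rw [cc_left_succ, ih _ (by omega), ih _ (by omega), sub_zero]

/-- reversal symmetry -/
lemma cc_symm (a b k l : ℕ) (h : k + l = a + b) : cc a b k = (-1) ^ a * cc a b l := by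
  induction a generalizing k l with
  | zero =>
    induction b generalizing k l with
    | zero =>
      obtain ⟨rfl, rfl⟩ : k = 0 ∧ l = 0 := by omega
      simp
    | succ b ih =>
      rcases k with _ | k
      · rcases l with _ | l
        · omega
        · rw [cc_right_zero, cc_right_succ, cc_eq_zero 0 b (l + 1) (by omega), zero_add]
          exact ih 0 l (by omega)
      · rcases l with _ | l
        · rw [cc_right_zero, cc_right_succ, cc_eq_zero 0 b (k + 1) (by omega), zero_add]
          exact ih k 0 (by omega)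
        · rw [cc_right_succ, cc_right_succ, ih (k + 1) l (by omega), ih k (l + 1) (by omega)]
          ring
  | succ a ih =>
    rcases k with _ | k
    · rcases l with _ | l
      · omega
      · rw [cc_left_zero, cc_left_succ, cc_eq_zero a b (l + 1) (by omega), zero_sub,
          ih 0 l (by omega)]
        ring
    · rcases l with _ | l
      · rw [cc_left_zero, cc_left_succ, cc_eq_zero a b (k + 1) (by omega), zero_sub,
          ih k 0 (by omega)]
        ring
      · rw [cc_left_succ, cc_left_succ, ih (k + 1) l (by omega), ih k (l + 1) (by omega)]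
        ring

/-- homogenisation of the generating polynomial -/
lemma cc_hom {R : Type*} [CommRing R] (U V : R) (a b : ℕ) :
    ∑ k ∈ range (a + b + 1), (cc a b k : R) * (U ^ k * V ^ (a + b - k)) =
      (V - U) ^ a * (V + U) ^ b := by
  have key : ∀ (s : ℕ) (f : ℕ → ℤ), f (s + 1) = 0 →
      ∀ (e : ℤ) (F : ℕ → ℤ), F 0 = f 0 → (∀ k, F (k + 1) = f (k + 1) + e * f k) →
      ∑ k ∈ range (s + 1 + 1), (F k : R) * (U ^ k * V ^ (s + 1 - k)) =
        (V + e * U) * ∑ k ∈ range (s + 1), (f k : R) * (U ^ k * V ^ (s - k)) := by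
    intro s f hf e F hF0 hF
    rw [add_mul, Finset.mul_sum, Finset.mul_sum]
    have h1 : ∑ k ∈ range (s + 1), V * ((f k : R) * (U ^ k * V ^ (s - k))) =
        ∑ k ∈ range (s + 1 + 1), (f k : R) * (U ^ k * V ^ (s + 1 - k)) := by
      rw [Finset.sum_range_succ _ (s + 1), hf]
      simp only [Int.cast_zero, zero_mul, add_zero]
      refine Finset.sum_congr rfl fun k hk => ?_
      have : s + 1 - k = (s - k) + 1 := by have := Finset.mem_range.1 hk; omega
      rw [this, pow_succ]; ring
    rw [h1, Finset.sum_range_succ' _ (s + 1), Finset.sum_range_succ' _ (s + 1), hF0]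
    have h2 : ∀ k, (F (k + 1) : R) * (U ^ (k + 1) * V ^ (s + 1 - (k + 1))) =
        (f (k + 1) : R) * (U ^ (k + 1) * V ^ (s + 1 - (k + 1))) +
          (e : R) * U * ((f k : R) * (U ^ k * V ^ (s - k))) := by
      intro k
      rw [hF k]
      have : s + 1 - (k + 1) = s - k := by omega
      rw [this]
      push_cast
      ring
    simp only [h2, Finset.sum_add_distrib]
    ring
  induction a with
  | zero =>
    induction b with
    | zero => simp [cc_zero_zero]
    | succ b ih =>
      have := key (0 + b) (cc 0 b) (cc_eq_zero _ _ _ (by omega)) 1 (cc 0 (b + 1))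
        (cc_right_zero _ _) (fun k => by rw [cc_right_succ]; ring)
      have e : 0 + (b + 1) = 0 + b + 1 := by omega
      rw [e, this, ih]
      push_cast
      ring
  | succ a ih =>
    have := key (a + b) (cc a b) (cc_eq_zero _ _ _ (by omega)) (-1) (cc (a + 1) b)
      (cc_left_zero _ _) (fun k => by rw [cc_left_succ]; ring)
    have e : a + 1 + b = a + b + 1 := by omega
    rw [e, this, ih]
    push_cast
    ring

end Pool.Agent.Work.MP_b90a94_co
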