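import Mathlib

/-! The sign computation: all matchings of the layered graph carry the same Kasteleyn sign. -/

namespace Pool.Agent.Work.MP_b90a94_co

open Finset

abbrev XI (n : ℕ) := Fin (n + 1) × Fin n
abbrev YI (n : ℕ) := Fin n × Fin (n + 1)

def eX (n : ℕ) : XI n ≃ Fin (n * (n + 1)) :=
  finProdFinEquiv.trans (finCongr (Nat.mul_comm _ _))

def eY (n : ℕ) : YI n ≃ Fin (n * (n + 1)) := finProdFinEquiv

lemma eX_val (n : ℕ) (x : XI n) : (eX n x).val = x.2.val + n * x.1.val := rfl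

lemma eY_val (n : ℕ) (y : YI n) : (eY n y).val = y.2.val + (n + 1) * y.1.val := rfl

lemma eX_lt (n : ℕ) (x x' : XI n) :
    eX n x < eX n x' ↔ (x.1.val < x'.1.val ∨ (x.1.val = x'.1.val ∧ x.2.val < x'.2.val)) := by
  rw [Fin.lt_def, eX_val, eX_val]
  have h1 := x.2.isLt
  have h2 := x'.2.isLt
  constructor
  · intro h
    rcases Nat.lt_trichotomy x.1.val x'.1.val with h3 | h3 | h3
    · exact Or.inl h3
    · right
      rw [h3] at h
      exact ⟨h3, by omega⟩
    · exfalso
      have : n * (x'.1.val + 1) ≤ n * x.1.val := Nat.mul_le_mul_left _ h3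
      rw [Nat.mul_add] at this
      omega
  · rintro (h3 | ⟨h3, h4⟩)
    · have : n * (x.1.val + 1) ≤ n * x'.1.val := Nat.mul_le_mul_left _ h3
      rw [Nat.mul_add] at this
      omega
    · rw [h3]; omega

lemma eY_lt (n : ℕ) (y y' : YI n) :
    eY n y < eY n y' ↔ (y.1.val < y'.1.val ∨ (y.1.val = y'.1.val ∧ y.2.val < y'.2.val)) := by
  rw [Fin.lt_def, eY_val, eY_val]
  have h1 := y.2.isLt
  have h2 := y'.2.isLt
  constructor
  · intro h
    rcases Nat.lt_trichotomy y.1.val y'.1.val with h3 | h3 | h3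
    · exact Or.inl h3
    · right
      rw [h3] at h
      exact ⟨h3, by omega⟩
    · exfalso
      have : (n + 1) * (y'.1.val + 1) ≤ (n + 1) * y.1.val := Nat.mul_le_mul_left _ h3
      rw [Nat.mul_add] at this
      omega
  · rintro (h3 | ⟨h3, h4⟩)
    · have : (n + 1) * (y.1.val + 1) ≤ (n + 1) * y'.1.val := Nat.mul_le_mul_left _ h3
      rw [Nat.mul_add] at this
      omega
    · rw [h3]; omega

/-- the permutation attached to a bijection between the two colour classes -/
def toPerm {n : ℕ} (σ : YI n ≃ XI n) : Equiv.Perm (Fin (n * (n + 1))) :=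
  (eY n).symm.trans (σ.trans (eX n))

lemma sign_toPerm {n : ℕ} (σ : YI n ≃ XI n) :
    ((Equiv.Perm.sign (toPerm σ) : ℤˣ) : ℤ) =
      ∏ y' : YI n, ∏ y : YI n, (if eY n y < eY n y' then
        (if eX n (σ y) < eX n (σ y') then 1 else -1) else 1) := by
  rw [Equiv.Perm.sign_eq_prod_prod_Iio]
  push_cast
  rw [← (eY n).symm.prod_comp]
  refine Finset.prod_congr rfl fun j _ => ?_
  rw [← (eY n).symm.prod_comp, ← Finset.prod_filter]
  have : (Finset.univ.filter fun i => eY n ((eY n).symm i) < eY n ((eY n).symm j))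
      = Finset.Iio j := by
    ext i; simp
  rw [this]
  refine Finset.prod_congr rfl fun i _ => ?_
  have key : (toPerm σ i < toPerm σ j) ↔
      eX n (σ ((eY n).symm i)) < eX n (σ ((eY n).symm j)) := Iff.rfl
  by_cases hc : eX n (σ ((eY n).symm i)) < eX n (σ ((eY n).symm j))
  · rw [if_pos (key.2 hc), if_pos hc]; rfl
  · rw [if_neg (fun h => hc (key.1 h)), if_neg hc]; rfl

/-- adjacency of a cell `y` of the first class and a cell `x` of the second class -/
def Adj {n : ℕ} (y : YI n) (x : XI n) : Prop :=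
  (x.1.val = y.1.val ∨ x.1.val = y.1.val + 1) ∧ (x.2.val = y.2.val ∨ x.2.val + 1 = y.2.val)

instance {n : ℕ} (y : YI n) (x : XI n) : Decidable (Adj y x) := by
  unfold Adj; infer_instance

/-- matchings of the layered graph with the cells `(κ, μ+2)` and `(κ+1, μ)` removed -/
def Good {n : ℕ} (κ μ : ℕ) (σ : YI n ≃ XI n) : Prop :=
  ∀ y : YI n, (y.1.val = κ ∧ y.2.val = μ + 2 ∧ (σ y).1.val = κ + 1 ∧ (σ y).2.val = μ) ∨
    (¬ (y.1.val = κ ∧ y.2.val = μ + 2) ∧ Adj y (σ y))

instance {n : ℕ} (κ μ : ℕ) (σ : YI n ≃ XI n) : Decidable (Good κ μ σ) := by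
  unfold Good; infer_instance

/-- indicator of being matched to the right column -/
def dd {n : ℕ} (σ : YI n ≃ XI n) (y : YI n) : ℤ := if (σ y).1.val = y.1.val + 1 then 1 else 0

/-- the inversion indicator -/
def inv {n : ℕ} (σ : YI n ≃ XI n) (y y' : YI n) : ℕ :=
  if eY n y < eY n y' then (if eX n (σ y) < eX n (σ y') then 0 else 1) else 0

lemma sign_toPerm' {n : ℕ} (σ : YI n ≃ XI n) :
    ((Equiv.Perm.sign (toPerm σ) : ℤˣ) : ℤ) = (-1) ^ (∑ y' : YI n, ∑ y : YI n, inv σ y y') := by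
  rw [sign_toPerm, ← Finset.prod_pow_eq_pow_sum]
  refine Finset.prod_congr rfl fun y' _ => ?_
  rw [← Finset.prod_pow_eq_pow_sum]
  refine Finset.prod_congr rfl fun y _ => ?_
  unfold inv
  split_ifs <;> simp

/-- indicator of the special edge at the pair (y2,y1) -/
def spec {n : ℕ} (κ μ : ℕ) (σ : YI n ≃ XI n) (y : YI n) : ℕ :=
  if y.1.val = κ ∧ y.2.val = μ + 1 ∧ (σ y).1.val = κ + 1 ∧ (σ y).2.val = μ + 1 then 1 else 0

lemma inv_eq {n : ℕ} {κ μ : ℕ} {σ : YI n ≃ XI n} (h : Good κ μ σ) (y y' : YI n) :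
    (inv σ y y' : ℤ) =
      (if y.1.val = y'.1.val ∧ y.2.val < y'.2.val then dd σ y * (1 - dd σ y') else 0)
      + (if y.1.val + 1 = y'.1.val ∧ (σ y').2.val < (σ y).2.val then dd σ y * (1 - dd σ y') else 0)
      + (if y'.1.val = κ ∧ y'.2.val = μ + 2 then (spec κ μ σ y : ℤ) else 0) := by
  have hy := h y
  have hy' := h y'
  unfold Adj at hy hy'
  have hinj : (σ y).1.val = (σ y').1.val → (σ y).2.val = (σ y').2.val →
      (y.1.val = y'.1.val ∧ y.2.val = y'.2.val) := by
    intro h1 h2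
    have : σ y = σ y' := Prod.ext (Fin.ext h1) (Fin.ext h2)
    have := σ.injective this
    rw [this]; exact ⟨rfl, rfl⟩
  unfold inv dd spec
  simp only [eY_lt, eX_lt]
  generalize (σ y).1.val = a at *
  generalize (σ y).2.val = b at *
  generalize (σ y').1.val = a' at *
  generalize (σ y').2.val = b' at *
  generalize y.1.val = c at *
  generalize y.2.val = j at *
  generalize y'.1.val = c' at *
  generalize y'.2.val = j' at *
  clear h
  have e1 : a = c + 1 ∨ a = c := by omega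
  have e2 : a' = c' + 1 ∨ a' = c' := by omega
  have i0 : ¬ (c = c + 1) := by omega
  have i0' : ¬ (c' = c' + 1) := by omega
  rcases e1 with e1 | e1 <;> rcases e2 with e2 | e2
  · subst e1 e2
    simp only [if_true, sub_self, mul_zero, ite_self, zero_add]
    split_ifs <;> simp <;> omega
  · subst e1 e2
    simp only [if_true, i0', if_false, sub_zero, mul_one]
    split_ifs <;> simp <;> omega
  · subst e1 e2
    simp only [if_true, i0, if_false, zero_mul, ite_self, zero_add]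
    split_ifs <;> simp <;> omega
  · subst e1 e2
    simp only [i0, if_false, zero_mul, ite_self, zero_add]
    split_ifs <;> simp <;> omega

lemma dd_sq {n : ℕ} (σ : YI n ≃ XI n) (y : YI n) : dd σ y * dd σ y = dd σ y := by
  unfold dd; split_ifs <;> simp

lemma dd_good {n : ℕ} {κ μ : ℕ} {σ : YI n ≃ XI n} (h : Good κ μ σ) (y : YI n) :
    dd σ y = ((σ y).1.val : ℤ) - y.1.val := by
  have hy := h y
  unfold Adj at hy
  unfold dd
  split_ifs <;> omega

/-- counting pairs in `Fin N`: for a fixed `j`, the number of larger elements -/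
lemma sum_gt (N : ℕ) (j : Fin (N + 1)) :
    ∑ j' : Fin (N + 1), (if j.val < j'.val then (1 : ℤ) else 0) = (N : ℤ) - j.val := by
  rw [← Finset.sum_filter, Finset.sum_const, nsmul_eq_mul, mul_one]
  have : (Finset.univ.filter fun j' : Fin (N + 1) => j.val < j'.val) = Finset.Ioi j := by
    ext i; simp only [Finset.mem_filter, Finset.mem_univ, true_and, Finset.mem_Ioi, Fin.lt_def]
  rw [this, Fin.card_Ioi]
  have := j.isLt
  omega

lemma sum_lt (N : ℕ) (j : Fin N) :
    ∑ j' : Fin N, (if j'.val < j.val then (1 : ℤ) else 0) = j.val := by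
  rw [← Finset.sum_filter, Finset.sum_const, nsmul_eq_mul, mul_one]
  have : (Finset.univ.filter fun j' : Fin N => j'.val < j.val) = Finset.Iio j := by
    ext i; simp only [Finset.mem_filter, Finset.mem_univ, true_and, Finset.mem_Iio, Fin.lt_def]
  rw [this, Fin.card_Iio]

/-- quadratic term -/
def quad {n : ℕ} (σ : YI n ≃ XI n) : ℤ :=
  ∑ y' : YI n, ∑ y : YI n, if y.1.val = y'.1.val ∧ y.2.val < y'.2.val then dd σ y * dd σ y' else 0

def quadX {n : ℕ} (σ : YI n ≃ XI n) : ℤ :=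
  ∑ x' : XI n, ∑ x : XI n, if x.1.val = x'.1.val ∧ x'.2.val < x.2.val then
    dd σ (σ.symm x) * dd σ (σ.symm x') else 0

lemma two_quad {n : ℕ} (σ : YI n ≃ XI n) :
    2 * quad σ + ∑ y : YI n, dd σ y =
      ∑ y' : YI n, ∑ y : YI n, if y.1.val = y'.1.val then dd σ y * dd σ y' else 0 := by
  have h1 : quad σ = ∑ y' : YI n, ∑ y : YI n,
      if y.1.val = y'.1.val ∧ y'.2.val < y.2.val then dd σ y * dd σ y' else 0 := by
    unfold quad
    rw [Finset.sum_comm]
    refine Finset.sum_congr rfl fun y _ => Finset.sum_congr rfl fun y' _ => ?_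
    split_ifs <;> first | omega | rfl | ring
  have h2 : ∑ y : YI n, dd σ y = ∑ y' : YI n, ∑ y : YI n,
      if y = y' then dd σ y * dd σ y' else 0 := by
    refine Finset.sum_congr rfl fun y' _ => ?_
    rw [Finset.sum_ite_eq' Finset.univ y' (fun y => dd σ y * dd σ y'), if_pos (Finset.mem_univ _),
      dd_sq]
  rw [two_mul]
  nth_rw 2 [h1]
  rw [h2]
  unfold quad
  rw [← Finset.sum_add_distrib, ← Finset.sum_add_distrib]
  refine Finset.sum_congr rfl fun y' _ => ?_
  rw [← Finset.sum_add_distrib, ← Finset.sum_add_distrib]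
  refine Finset.sum_congr rfl fun y _ => ?_
  have : y = y' ↔ (y.1.val = y'.1.val ∧ y.2.val = y'.2.val) := by
    rw [Prod.ext_iff, Fin.ext_iff, Fin.ext_iff]
  simp only [this]
  split_ifs <;> omega

lemma two_quadX {n : ℕ} (σ : YI n ≃ XI n) :
    2 * quadX σ + ∑ x : XI n, dd σ (σ.symm x) =
      ∑ x' : XI n, ∑ x : XI n, if x.1.val = x'.1.val then
        dd σ (σ.symm x) * dd σ (σ.symm x') else 0 := by
  have h1 : quadX σ = ∑ x' : XI n, ∑ x : XI n,
      if x.1.val = x'.1.val ∧ x.2.val < x'.2.val then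
        dd σ (σ.symm x) * dd σ (σ.symm x') else 0 := by
    unfold quadX
    rw [Finset.sum_comm]
    refine Finset.sum_congr rfl fun y _ => Finset.sum_congr rfl fun y' _ => ?_
    split_ifs <;> first | omega | rfl | ring
  have h2 : ∑ x : XI n, dd σ (σ.symm x) = ∑ x' : XI n, ∑ x : XI n,
      if x = x' then dd σ (σ.symm x) * dd σ (σ.symm x') else 0 := by
    refine Finset.sum_congr rfl fun x' _ => ?_
    rw [Finset.sum_ite_eq' Finset.univ x' (fun x => dd σ (σ.symm x) * dd σ (σ.symm x')),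
      if_pos (Finset.mem_univ _), dd_sq]
  rw [two_mul]
  nth_rw 2 [h1]
  rw [h2]
  unfold quadX
  rw [← Finset.sum_add_distrib, ← Finset.sum_add_distrib]
  refine Finset.sum_congr rfl fun x' _ => ?_
  rw [← Finset.sum_add_distrib, ← Finset.sum_add_distrib]
  refine Finset.sum_congr rfl fun x _ => ?_
  have : x = x' ↔ (x.1.val = x'.1.val ∧ x.2.val = x'.2.val) := by
    rw [Prod.ext_iff, Fin.ext_iff, Fin.ext_iff]
  simp only [this]
  split_ifs <;> omega

lemma quad_eq {n : ℕ} (σ : YI n ≃ XI n) : quad σ = quadX σ := by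
  have h1 := two_quad σ
  have h2 := two_quadX σ
  have h3 : ∑ x : XI n, dd σ (σ.symm x) = ∑ y : YI n, dd σ y := by
    rw [← σ.sum_comp]; simp
  have h4 : (∑ x' : XI n, ∑ x : XI n, if x.1.val = x'.1.val then
        dd σ (σ.symm x) * dd σ (σ.symm x') else 0) =
      ∑ y' : YI n, ∑ y : YI n, if y.1.val = y'.1.val then dd σ y * dd σ y' else 0 := by
    rw [← σ.sum_comp]
    refine Finset.sum_congr rfl fun y' _ => ?_
    rw [← σ.sum_comp]
    refine Finset.sum_congr rfl fun y _ => ?_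
    simp only [Equiv.symm_apply_apply]
    unfold dd
    split_ifs <;> omega
  rw [h3, h4] at h2
  linarith

/-- the entry of the modified Kasteleyn matrix -/
def kk {n : ℕ} (κ μ : ℕ) (y : YI n) (x : XI n) : ℤ :=
  if x.1.val = κ + 1 ∧ x.2.val = μ then (if y.1.val = κ ∧ y.2.val = μ + 2 then 1 else 0)
  else if x.1.val = κ + 1 ∧ x.2.val = μ + 1 ∧ y.1.val = κ ∧ y.2.val = μ + 1 then -1
  else if x.1.val = y.1.val + 1 ∧ (x.2.val = y.2.val ∨ x.2.val + 1 = y.2.val) then 1
  else if x.1.val = y.1.val ∧ x.2.val = y.2.val then 1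
  else if x.1.val = y.1.val ∧ x.2.val + 1 = y.2.val then -1 else 0

/-- exponent of the weight sign -/
def wexp {n : ℕ} (σ : YI n ≃ XI n) (y : YI n) : ℕ :=
  if (σ y).1.val = y.1.val then y.2.val - (σ y).2.val else 0

lemma kk_good {n : ℕ} {κ μ : ℕ} (hκ : κ < n) (hμ : μ + 2 ≤ n) {σ : YI n ≃ XI n}
    (h : Good κ μ σ) (y : YI n) :
    kk κ μ y (σ y) = (-1) ^ (wexp σ y + spec κ μ σ y) := by
  have hy := h y
  have hinj : (σ y).1.val = κ + 1 → (σ y).2.val = μ → y.1.val = κ ∧ y.2.val = μ + 2 := by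
    intro h1 h2
    have hy' := h (⟨κ, hκ⟩, ⟨μ + 2, by omega⟩)
    simp only [true_and, not_true, false_and, or_false, and_self] at hy'
    have : y = (⟨κ, hκ⟩, ⟨μ + 2, by omega⟩) := by
      apply σ.injective
      refine Prod.ext (Fin.ext ?_) (Fin.ext ?_) <;> omega
    rw [this]; exact ⟨rfl, rfl⟩
  unfold kk wexp spec
  unfold Adj at hy
  clear h
  generalize (σ y).1.val = a at *
  generalize (σ y).2.val = b at *
  generalize y.1.val = c at *
  generalize y.2.val = j at *
  rcases hy with ⟨h1, h2, h3, h4⟩ | ⟨h0, h1 | h1, h2 | h2⟩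
  · subst h1 h2 h3 h4; simp
  · subst h1 h2
    split_ifs <;> first | omega | simp
  · subst h1 h2
    split_ifs <;> first | omega | simp
  · subst h1 h2
    split_ifs <;> first | omega | simp
  · subst h1 h2
    split_ifs <;> first | omega | simp

/-- the constant parity -/
def par (n : ℕ) : ℤ :=
  n * ((∑ x : XI n, (x.1.val : ℤ)) - ∑ y : YI n, (y.1.val : ℤ)) +
    (∑ y : YI n, (y.2.val : ℤ)) + ∑ x : XI n, (x.2.val : ℤ)

lemma sum_spec {n : ℕ} {κ μ : ℕ} (hκ : κ < n) (hμ : μ + 2 ≤ n) (σ : YI n ≃ XI n) :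
    ∑ y' : YI n, ∑ y : YI n,
      (if y'.1.val = κ ∧ y'.2.val = μ + 2 then (spec κ μ σ y : ℤ) else 0) =
    ∑ y : YI n, (spec κ μ σ y : ℤ) := by
  rw [Finset.sum_eq_single (⟨κ, hκ⟩, ⟨μ + 2, by omega⟩)]
  · simp
  · intro b _ hb
    apply Finset.sum_eq_zero
    intro y _
    rw [if_neg]
    rintro ⟨h1, h2⟩
    exact hb (Prod.ext (Fin.ext h1) (Fin.ext h2))
  · intro h; exact absurd (Finset.mem_univ _) h

lemma sumA {n : ℕ} (σ : YI n ≃ XI n) :
    ∑ y' : YI n, ∑ y : YI n,
      (if y.1.val = y'.1.val ∧ y.2.val < y'.2.val then dd σ y * (1 - dd σ y') else 0) =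
    (∑ y : YI n, dd σ y * ((n : ℤ) - y.2.val)) - quad σ := by
  have h1 : ∀ y : YI n, ∑ y' : YI n,
      (if y.1.val = y'.1.val ∧ y.2.val < y'.2.val then (1 : ℤ) else 0) = (n : ℤ) - y.2.val := by
    intro y
    rw [← sum_gt n y.2, Fintype.sum_prod_type, Finset.sum_eq_single y.1]
    · simp
    · intro b _ hb
      apply Finset.sum_eq_zero
      intro j _
      rw [if_neg]
      rintro ⟨h1, _⟩
      exact hb (Fin.ext h1).symm
    · intro h; exact absurd (Finset.mem_univ _) h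
  have h2 : ∑ y : YI n, dd σ y * ((n : ℤ) - y.2.val) = ∑ y' : YI n, ∑ y : YI n,
      (if y.1.val = y'.1.val ∧ y.2.val < y'.2.val then dd σ y else 0) := by
    rw [Finset.sum_comm]
    refine Finset.sum_congr rfl fun y _ => ?_
    rw [← h1 y, Finset.mul_sum]
    refine Finset.sum_congr rfl fun y' _ => ?_
    split_ifs <;> simp
  rw [h2]
  unfold quad
  rw [← Finset.sum_sub_distrib]
  refine Finset.sum_congr rfl fun y' _ => ?_
  rw [← Finset.sum_sub_distrib]
  refine Finset.sum_congr rfl fun y _ => ?_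
  split_ifs
  · ring
  · ring

lemma sumB {n : ℕ} {κ μ : ℕ} {σ : YI n ≃ XI n} (h : Good κ μ σ) :
    ∑ y' : YI n, ∑ y : YI n,
      (if y.1.val + 1 = y'.1.val ∧ (σ y').2.val < (σ y).2.val then
        dd σ y * (1 - dd σ y') else 0) =
    (∑ y : YI n, dd σ y * ((σ y).2.val : ℤ)) - quadX σ := by
  have h0 : ∑ y' : YI n, ∑ y : YI n,
      (if y.1.val + 1 = y'.1.val ∧ (σ y').2.val < (σ y).2.val then
        dd σ y * (1 - dd σ y') else 0) =
      ∑ x' : XI n, ∑ x : XI n, (if x.1.val = x'.1.val ∧ x'.2.val < x.2.val then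
        dd σ (σ.symm x) * (1 - dd σ (σ.symm x')) else 0) := by
    rw [← σ.sum_comp]
    refine Finset.sum_congr rfl fun y' _ => ?_
    rw [← σ.sum_comp]
    refine Finset.sum_congr rfl fun y _ => ?_
    simp only [Equiv.symm_apply_apply]
    have hy := h y
    have hy' := h y'
    unfold Adj at hy hy'
    unfold dd
    have e1 : (σ y).1.val = y.1.val + 1 ∨ (σ y).1.val = y.1.val := by omega
    have e2 : (σ y').1.val = y'.1.val + 1 ∨ (σ y').1.val = y'.1.val := by omega
    split_ifs <;> first | omega | simp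
  have h1 : ∀ x : XI n, ∑ x' : XI n,
      (if x.1.val = x'.1.val ∧ x'.2.val < x.2.val then (1 : ℤ) else 0) = x.2.val := by
    intro x
    rw [← sum_lt n x.2, Fintype.sum_prod_type, Finset.sum_eq_single x.1]
    · simp
    · intro b _ hb
      apply Finset.sum_eq_zero
      intro j _
      rw [if_neg]
      rintro ⟨h1, _⟩
      exact hb (Fin.ext h1).symm
    · intro h; exact absurd (Finset.mem_univ _) h
  have h2 : ∑ y : YI n, dd σ y * ((σ y).2.val : ℤ) = ∑ x' : XI n, ∑ x : XI n,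
      (if x.1.val = x'.1.val ∧ x'.2.val < x.2.val then dd σ (σ.symm x) else 0) := by
    rw [Finset.sum_comm, ← σ.sum_comp]
    refine Finset.sum_congr rfl fun y _ => ?_
    rw [← h1 (σ y), Finset.mul_sum]
    refine Finset.sum_congr rfl fun y' _ => ?_
    simp only [Equiv.symm_apply_apply]
    split_ifs <;> simp
  rw [h0, h2]
  unfold quadX
  rw [← Finset.sum_sub_distrib]
  refine Finset.sum_congr rfl fun y' _ => ?_
  rw [← Finset.sum_sub_distrib]
  refine Finset.sum_congr rfl fun y _ => ?_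
  split_ifs
  · ring
  · ring

lemma total_parity {n : ℕ} {κ μ : ℕ} (hκ : κ < n) (hμ : μ + 2 ≤ n) {σ : YI n ≃ XI n}
    (h : Good κ μ σ) :
    ∃ e : ℤ, (((∑ y' : YI n, ∑ y : YI n, inv σ y y') +
      ∑ y : YI n, (wexp σ y + spec κ μ σ y) : ℕ) : ℤ) = par n + 2 * e := by
  have h1 : ((∑ y' : YI n, ∑ y : YI n, inv σ y y' : ℕ) : ℤ) =
      (∑ y : YI n, dd σ y * ((n : ℤ) - y.2.val)) + (∑ y : YI n, dd σ y * ((σ y).2.val : ℤ))
        - 2 * quad σ + ∑ y : YI n, (spec κ μ σ y : ℤ) := by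
    push_cast
    simp only [inv_eq h, Finset.sum_add_distrib]
    rw [sumA, sumB h, sum_spec hκ hμ, ← quad_eq]
    ring
  have h2 : ∀ y : YI n, (wexp σ y : ℤ) = (1 - dd σ y) * ((y.2.val : ℤ) - (σ y).2.val) := by
    intro y
    have hy := h y
    unfold Adj at hy
    unfold wexp dd
    split_ifs <;> first | omega | (simp <;> omega)
  have h3 : ∑ y : YI n, dd σ y = (∑ x : XI n, (x.1.val : ℤ)) - ∑ y : YI n, (y.1.val : ℤ) := by
    rw [← σ.sum_comp, ← Finset.sum_sub_distrib]
    exact Finset.sum_congr rfl fun y _ => dd_good h y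
  have h4 : ∑ x : XI n, (x.2.val : ℤ) = ∑ y : YI n, ((σ y).2.val : ℤ) := by
    rw [← σ.sum_comp]
  refine ⟨(∑ y : YI n, (spec κ μ σ y : ℤ)) - quad σ +
    (∑ y : YI n, dd σ y * (((σ y).2.val : ℤ) - y.2.val)) - ∑ y : YI n, ((σ y).2.val : ℤ), ?_⟩
  rw [Nat.cast_add, h1]
  unfold par
  rw [← h3, h4]
  push_cast
  simp only [h2]
  simp only [Finset.sum_add_distrib, Finset.sum_sub_distrib, mul_sub, sub_mul, one_mul,
    ← Finset.sum_mul]
  ring

/-- All good matchings carry the same sign. -/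
theorem sign_const {n : ℕ} {κ μ : ℕ} (hκ : κ < n) (hμ : μ + 2 ≤ n) :
    ∃ ε : ℤ, (ε = 1 ∨ ε = -1) ∧ ∀ σ : YI n ≃ XI n, Good κ μ σ →
      ((Equiv.Perm.sign (toPerm σ) : ℤˣ) : ℤ) * ∏ y : YI n, kk κ μ y (σ y) = ε := by
  refine ⟨if Even (par n) then 1 else -1, by split_ifs <;> simp, fun σ h => ?_⟩
  rw [sign_toPerm', Finset.prod_congr rfl (fun y _ => kk_good hκ hμ h y),
    Finset.prod_pow_eq_pow_sum, ← pow_add]
  obtain ⟨e, he⟩ := total_parity hκ hμ h
  split_ifs with hp
  · have : Even ((∑ y' : YI n, ∑ y : YI n, inv σ y y') +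
      ∑ y : YI n, (wexp σ y + spec κ μ σ y) : ℕ) := by
      rw [← Int.even_coe_nat, he]
      exact hp.add (even_two_mul e)
    exact this.neg_one_pow
  · have : Odd ((∑ y' : YI n, ∑ y : YI n, inv σ y y') +
      ∑ y : YI n, (wexp σ y + spec κ μ σ y) : ℕ) := by
      rw [← Int.odd_coe_nat, he]
      exact (Int.not_even_iff_odd.1 hp).add_even (even_two_mul e)
    exact this.neg_one_pow

/-- a bijection that is not good has a vanishing product -/
theorem prod_eq_zero {n : ℕ} {κ μ : ℕ} (hκ : κ < n) (hμ : μ + 2 ≤ n) (σ : YI n ≃ XI n)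
    (h : ¬ Good κ μ σ) : ∏ y : YI n, kk κ μ y (σ y) = 0 := by
  by_contra hne
  apply h
  have hall : ∀ y : YI n, kk κ μ y (σ y) ≠ 0 := by
    intro y hy
    exact hne (Finset.prod_eq_zero (Finset.mem_univ y) hy)
  have h1 : σ (⟨κ, hκ⟩, ⟨μ + 2, by omega⟩) = (⟨κ + 1, by omega⟩, ⟨μ, by omega⟩) := by
    have := hall (σ.symm (⟨κ + 1, by omega⟩, ⟨μ, by omega⟩))
    unfold kk at this
    simp only [Equiv.apply_symm_apply, and_self, if_true] at this
    rw [← Equiv.eq_symm_apply]
    by_contra hc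
    apply this
    rw [if_neg]
    rintro ⟨h2, h3⟩
    exact hc (Prod.ext (Fin.ext h2.symm) (Fin.ext h3.symm))
  intro y
  by_cases hy : y.1.val = κ ∧ y.2.val = μ + 2
  · left
    have : y = (⟨κ, hκ⟩, ⟨μ + 2, by omega⟩) := Prod.ext (Fin.ext hy.1) (Fin.ext hy.2)
    rw [this, h1]
    exact ⟨rfl, rfl, rfl, rfl⟩
  · right
    refine ⟨hy, ?_⟩
    have := hall y
    unfold kk at this
    unfold Adj
    split_ifs at this <;> omega

end Pool.Agent.Work.MP_b90a94_co
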