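import Mathlib
import Pool.Agent.Work.MP_b90a94_co.Sign
import Pool.Agent.Work.MP_b90a94_co.Kraw

/-! The Kasteleyn matrix of the Aztec diamond, its determinant and its inverse. -/

namespace Pool.Agent.Work.MP_b90a94_co

open Finset Matrix
open scoped Kronecker

/-- Kasteleyn matrix -/
def Km (n : ℕ) : Matrix (YI n) (XI n) ℤ := Matrix.of fun y x =>
  (if x.1.val = y.1.val + 1 then
    (if x.2.val = y.2.val then 1 else 0) + (if x.2.val + 1 = y.2.val then 1 else 0) else 0)
  + (if x.1.val = y.1.val then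
    (if x.2.val = y.2.val then 1 else 0) - (if x.2.val + 1 = y.2.val then 1 else 0) else 0)

/-- the unimodular model -/
def KI (n : ℕ) : Matrix (YI n) (XI n) ℤ := Matrix.of fun y x =>
  (if x.1.val = y.1.val + 1 then (if x.2.val = y.2.val then 1 else 0) else 0)
  + (if x.1.val = y.1.val then (if x.2.val + 1 = y.2.val then 1 else 0) else 0)

/-- inverse of the unimodular model -/
def LI (n : ℕ) : Matrix (XI n) (YI n) ℤ := Matrix.of fun x y =>
  if y.2.val ≤ y.1.val then
    (if y.1.val + 1 ≤ x.1.val ∧ x.2.val + y.1.val + 1 = y.2.val + x.1.val then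
      (-1) ^ (x.1.val + y.1.val + 1) else 0)
  else
    (if x.1.val ≤ y.1.val ∧ x.2.val + y.1.val + 1 = y.2.val + x.1.val then
      (-1) ^ (x.1.val + y.1.val) else 0)

noncomputable def Krm (N : ℕ) : Matrix (Fin (N + 1)) (Fin (N + 1)) ℤ :=
  Matrix.of fun a b => kr N a.val b.val

lemma sum_ind {N : ℕ} (j : ℕ) (f : ℕ → ℤ) :
    ∑ i : Fin N, (if i.val = j then (1 : ℤ) else 0) * f i.val = if j < N then f j else 0 := by
  split_ifs with h
  · rw [Finset.sum_eq_single ⟨j, h⟩]
    · simp
    · intro b _ hb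
      rw [if_neg, zero_mul]
      intro h'
      exact hb (Fin.ext h')
    · intro h'; exact absurd (Finset.mem_univ _) h'
  · apply Finset.sum_eq_zero
    intro i _
    rw [if_neg, zero_mul]
    have := i.isLt
    omega

lemma Krm_sq (N : ℕ) : Krm N * Krm N = (2 : ℤ) ^ N • (1 : Matrix (Fin (N + 1)) (Fin (N + 1)) ℤ) := by
  ext a c
  rw [Matrix.mul_apply]
  simp only [Krm, Matrix.of_apply, kr, Matrix.smul_apply, smul_eq_mul]
  have hc : c.val ≤ N := by have := c.isLt; omega
  have h1 := cc_hom (1 - Polynomial.X : Polynomial ℤ) (1 + Polynomial.X) c.val (N - c.val)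
  have e1 : c.val + (N - c.val) = N := by omega
  rw [e1] at h1
  have h2 : ((1 + Polynomial.X) - (1 - Polynomial.X) : Polynomial ℤ) = Polynomial.C 2 * Polynomial.X := by
    rw [show (Polynomial.C (2 : ℤ)) = 2 from rfl]; ring
  have h3 : ((1 + Polynomial.X) + (1 - Polynomial.X) : Polynomial ℤ) = Polynomial.C 2 := by
    rw [show (Polynomial.C (2 : ℤ)) = 2 from rfl]; ring
  rw [h2, h3] at h1
  have h4 := congrArg (fun p => Polynomial.coeff p a.val) h1
  simp only [Polynomial.finsetSum_coeff] at h4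
  rw [Finset.sum_range] at h4
  have h5 : ∀ i : Fin (N + 1), (((cc c.val (N - c.val) i.val : ℤ) : Polynomial ℤ) *
      ((1 - Polynomial.X) ^ i.val * (1 + Polynomial.X) ^ (N - i.val))).coeff a.val =
      cc i.val (N - i.val) a.val * cc c.val (N - c.val) i.val := by
    intro i
    rw [← Polynomial.C_eq_intCast, Polynomial.coeff_C_mul, mul_comm]
    simp [cc]
  simp only [h5] at h4
  rw [h4]
  rw [mul_pow, ← Polynomial.C_pow, ← Polynomial.C_pow, mul_assoc, Polynomial.coeff_C_mul,
    Polynomial.coeff_mul_C, Polynomial.coeff_X_pow, Matrix.one_apply]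
  have : (a = c) ↔ (a.val = c.val) := Fin.ext_iff
  simp only [this]
  split_ifs
  · rw [one_mul, mul_one, ← pow_add, e1]
  · simp

lemma Krm_det_sq (N : ℕ) : (Krm N).det ^ 2 = 2 ^ (N * (N + 1)) := by
  have h := congrArg Matrix.det (Krm_sq N)
  rw [Matrix.det_mul, Matrix.det_smul, Matrix.det_one, mul_one, Fintype.card_fin, ← pow_mul] at h
  rw [sq, h]

lemma Krm_absdet (N : ℕ) : |(Krm N).det| = 2 ^ (N * (N + 1) / 2) := by
  have h := Krm_det_sq N
  have h2 : (2 : ℤ) ^ (N * (N + 1)) = (2 ^ (N * (N + 1) / 2)) ^ 2 := by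
    rw [← pow_mul]
    congr 1
    have : Even (N * (N + 1)) := Nat.even_mul_succ_self N
    obtain ⟨r, hr⟩ := this
    omega
  rw [h2, ← sq_abs] at h
  have h3 : (0 : ℤ) ≤ 2 ^ (N * (N + 1) / 2) := by positivity
  exact (pow_left_inj₀ (abs_nonneg _) h3 (by norm_num)).1 h

lemma kr_succ (N j b : ℕ) (hb : b ≤ N) :
    kr (N + 1) j b = kr N j b + (if 0 < j then kr N (j - 1) b else 0) := by
  unfold kr
  have e : N + 1 - b = (N - b) + 1 := by omega
  rw [e]
  rcases j with _ | j
  · simp [cc_right_zero]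
  · rw [cc_right_succ]; simp

lemma kr_succ' (N j b : ℕ) (hb : b ≤ N) :
    kr (N + 1) j (b + 1) = kr N j b - (if 0 < j then kr N (j - 1) b else 0) := by
  unfold kr
  have e : N + 1 - (b + 1) = (N - b) := by omega
  rw [e]
  rcases j with _ | j
  · simp [cc_left_zero]
  · rw [cc_left_succ]; simp

lemma kr_eq_zero (N b : ℕ) (hb : b ≤ N) : kr N (N + 1) b = 0 := by
  unfold kr
  exact cc_eq_zero _ _ _ (by omega)

lemma Km_Krm (N : ℕ) :
    Km (N + 1) * ((1 : Matrix (Fin (N + 2)) (Fin (N + 2)) ℤ) ⊗ₖ Krm N) =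
      ((1 : Matrix (Fin (N + 1)) (Fin (N + 1)) ℤ) ⊗ₖ Krm (N + 1)) * KI (N + 1) := by
  ext ⟨c, j⟩ ⟨c', b⟩
  rw [Matrix.mul_apply, Matrix.mul_apply, Fintype.sum_prod_type, Fintype.sum_prod_type]
  simp only [Matrix.kroneckerMap_apply, Km, KI, Krm, Matrix.of_apply, Matrix.one_apply]
  refine (Finset.sum_eq_single c' ?_ ?_).trans (Eq.trans ?_ (Finset.sum_eq_single c ?_ ?_).symm)
  rotate_left 2
  · simp only [if_true, one_mul]
    have hb : b.val ≤ N := by have := b.isLt; omega
    have hj := j.isLt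
    have s1 : ∀ t : ℕ, ∑ i : Fin (N + 1), (if i.val = t then (1 : ℤ) else 0) * kr N i.val b.val =
      if t < N + 1 then kr N t b.val else 0 := fun t => sum_ind t (fun i => kr N i b.val)
    have s2 : ∑ i : Fin (N + 1), (if i.val + 1 = j.val then (1 : ℤ) else 0) * kr N i.val b.val =
        if 0 < j.val then kr N (j.val - 1) b.val else 0 := by
      rcases Nat.eq_zero_or_pos j.val with h | h
      · rw [if_neg (by omega)]
        apply Finset.sum_eq_zero
        intro i _
        rw [if_neg (by omega), zero_mul]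
      · rw [if_pos h]
        have := s1 (j.val - 1)
        rw [if_pos (by omega)] at this
        rw [← this]
        refine Finset.sum_congr rfl fun i _ => ?_
        have : (i.val + 1 = j.val) ↔ (i.val = j.val - 1) := by omega
        simp only [this]
    have s3 : ∑ i : Fin (N + 1), (if i.val = j.val then (1 : ℤ) else 0) * kr N i.val b.val =
        kr N j.val b.val := by
      rw [s1]
      split_ifs with h
      · rfl
      · have : j.val = N + 1 := by omega
        rw [this, kr_eq_zero _ _ hb]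
    have t1 : ∑ i : Fin (N + 1 + 1), kr (N + 1) j.val i.val * (if b.val = i.val then (1 : ℤ) else 0) =
        kr (N + 1) j.val b.val := by
      have := sum_ind (N := N + 1 + 1) b.val (fun i => kr (N + 1) j.val i)
      rw [if_pos (by omega)] at this
      rw [← this]
      refine Finset.sum_congr rfl fun i _ => ?_
      by_cases h : i.val = b.val
      · rw [if_pos h, if_pos h.symm, mul_comm]
      · rw [if_neg h, if_neg (Ne.symm h), mul_comm]
    have t2 : ∑ i : Fin (N + 1 + 1), kr (N + 1) j.val i.val *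
        (if b.val + 1 = i.val then (1 : ℤ) else 0) = kr (N + 1) j.val (b.val + 1) := by
      have := sum_ind (N := N + 1 + 1) (b.val + 1) (fun i => kr (N + 1) j.val i)
      rw [if_pos (by omega)] at this
      rw [← this]
      refine Finset.sum_congr rfl fun i _ => ?_
      by_cases h : i.val = b.val + 1
      · rw [if_pos h, if_pos h.symm, mul_comm]
      · rw [if_neg h, if_neg (Ne.symm h), mul_comm]
    by_cases h1 : c'.val = c.val + 1
    · have h2 : ¬ (c'.val = c.val) := by omega
      simp only [h1, if_true]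
      have h3 : ¬ (c.val + 1 = c.val) := by omega
      simp only [h3, if_false, add_zero, add_mul, Finset.sum_add_distrib]
      rw [s3, s2, t1, kr_succ _ _ _ hb]
    · by_cases h2 : c'.val = c.val
      · simp only [h1, if_false, h2, if_true, zero_add, sub_mul, Finset.sum_sub_distrib]
        have h3 : ¬ (c.val = c.val + 1) := by omega
        simp only [h3, if_false, zero_add, sub_mul, Finset.sum_sub_distrib]
        rw [s3, s2, t2, kr_succ' _ _ _ hb]
      · simp [h1, h2]
  · intro i _ hi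
    apply Finset.sum_eq_zero
    intro t _
    rw [if_neg (Ne.symm hi)]; simp
  · intro h; exact absurd (Finset.mem_univ _) h
  · intro i _ hi
    apply Finset.sum_eq_zero
    intro t _
    rw [if_neg hi]; simp
  · intro h; exact absurd (Finset.mem_univ _) h

/-- entries of `KI * v` for a vector of the form given by a function on naturals -/
lemma KI_LI (N : ℕ) : KI (N + 1) * LI (N + 1) = 1 := by
  ext ⟨c, j⟩ ⟨c0, b0⟩
  rw [Matrix.mul_apply, Fintype.sum_prod_type]
  simp only [KI, LI, Matrix.of_apply, add_mul, Finset.sum_add_distrib]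
  have hc := c.isLt
  have hj := j.isLt
  have hc0 := c0.isLt
  have hb0 := b0.isLt
  -- the two possible neighbours
  have A : ∑ x : Fin (N + 1 + 1), ∑ x_1 : Fin (N + 1),
      (if x.val = c.val + 1 then (if x_1.val = j.val then (1 : ℤ) else 0) else 0) *
        (if b0.val ≤ c0.val then
          (if c0.val + 1 ≤ x.val ∧ x_1.val + c0.val + 1 = b0.val + x.val then
            (-1 : ℤ) ^ (x.val + c0.val + 1) else 0)
        else
          (if x.val ≤ c0.val ∧ x_1.val + c0.val + 1 = b0.val + x.val then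
            (-1) ^ (x.val + c0.val) else 0)) =
      if j.val < N + 1 then
        (if b0.val ≤ c0.val then
          (if c0.val + 1 ≤ c.val + 1 ∧ j.val + c0.val + 1 = b0.val + (c.val + 1) then
            (-1 : ℤ) ^ (c.val + 1 + c0.val + 1) else 0)
        else
          (if c.val + 1 ≤ c0.val ∧ j.val + c0.val + 1 = b0.val + (c.val + 1) then
            (-1) ^ (c.val + 1 + c0.val) else 0)) else 0 := by
    refine (Finset.sum_eq_single (⟨c.val + 1, by omega⟩ : Fin (N + 1 + 1)) ?_ ?_).trans ?_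
    · intro i _ hi
      apply Finset.sum_eq_zero
      intro t _
      rw [if_neg, zero_mul]
      intro h; exact hi (Fin.ext h)
    · intro h; exact absurd (Finset.mem_univ _) h
    · simp only [if_true]
      exact sum_ind (N := N + 1) j.val (fun t => if b0.val ≤ c0.val then
          (if c0.val + 1 ≤ c.val + 1 ∧ t + c0.val + 1 = b0.val + (c.val + 1) then
            (-1 : ℤ) ^ (c.val + 1 + c0.val + 1) else 0)
        else
          (if c.val + 1 ≤ c0.val ∧ t + c0.val + 1 = b0.val + (c.val + 1) then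
            (-1) ^ (c.val + 1 + c0.val) else 0))
  have B : ∑ x : Fin (N + 1 + 1), ∑ x_1 : Fin (N + 1),
      (if x.val = c.val then (if x_1.val + 1 = j.val then (1 : ℤ) else 0) else 0) *
        (if b0.val ≤ c0.val then
          (if c0.val + 1 ≤ x.val ∧ x_1.val + c0.val + 1 = b0.val + x.val then
            (-1 : ℤ) ^ (x.val + c0.val + 1) else 0)
        else
          (if x.val ≤ c0.val ∧ x_1.val + c0.val + 1 = b0.val + x.val then
            (-1) ^ (x.val + c0.val) else 0)) =
      if 0 < j.val then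
        (if b0.val ≤ c0.val then
          (if c0.val + 1 ≤ c.val ∧ (j.val - 1) + c0.val + 1 = b0.val + c.val then
            (-1 : ℤ) ^ (c.val + c0.val + 1) else 0)
        else
          (if c.val ≤ c0.val ∧ (j.val - 1) + c0.val + 1 = b0.val + c.val then
            (-1) ^ (c.val + c0.val) else 0)) else 0 := by
    refine (Finset.sum_eq_single (⟨c.val, by omega⟩ : Fin (N + 1 + 1)) ?_ ?_).trans ?_
    · intro i _ hi
      apply Finset.sum_eq_zero
      intro t _
      rw [if_neg, zero_mul]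
      intro h; exact hi (Fin.ext h)
    · intro h; exact absurd (Finset.mem_univ _) h
    · simp only [if_true]
      rcases Nat.eq_zero_or_pos j.val with h | h
      · rw [if_neg (by omega)]
        apply Finset.sum_eq_zero
        intro i _
        rw [if_neg (by omega), zero_mul]
      · rw [if_pos h]
        have := sum_ind (N := N + 1) (j.val - 1) (fun t => if b0.val ≤ c0.val then
          (if c0.val + 1 ≤ c.val ∧ t + c0.val + 1 = b0.val + c.val then
            (-1 : ℤ) ^ (c.val + c0.val + 1) else 0)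
        else
          (if c.val ≤ c0.val ∧ t + c0.val + 1 = b0.val + c.val then
            (-1) ^ (c.val + c0.val) else 0))
        rw [if_pos (by omega)] at this
        rw [← this]
        refine Finset.sum_congr rfl fun i _ => ?_
        have : (i.val + 1 = j.val) ↔ (i.val = j.val - 1) := by omega
        simp only [this]
  rw [A, B, Matrix.one_apply]
  have hiff : ((c, j) : YI (N + 1)) = (c0, b0) ↔ (c.val = c0.val ∧ j.val = b0.val) := by
    rw [Prod.ext_iff, Fin.ext_iff, Fin.ext_iff]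
  simp only [hiff]
  clear A B hiff
  generalize c.val = c at *
  generalize j.val = j at *
  generalize c0.val = c0 at *
  generalize b0.val = b0 at *
  have e1 : (-1 : ℤ) ^ (c + 1 + c0 + 1) = (-1) ^ (c + c0) := by
    rw [show c + 1 + c0 + 1 = (c + c0) + 2 by ring, pow_add]; norm_num
  have e2 : (-1 : ℤ) ^ (c + c0 + 1) = -(-1) ^ (c + c0) := by
    rw [pow_succ]; ring
  have e3 : (-1 : ℤ) ^ (c + 1 + c0) = -(-1) ^ (c + c0) := by
    rw [show c + 1 + c0 = (c + c0) + 1 by ring, pow_succ]; ring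
  have e4 : c = c0 → (-1 : ℤ) ^ (c + c0) = 1 := by
    intro h
    rw [h, ← two_mul, pow_mul]; norm_num
  simp only [e1, e2, e3]
  clear e1 e2 e3
  generalize (-1 : ℤ) ^ (c + c0) = s at *
  split_ifs <;> omega

/-- identification of the two classes -/
def ee (n : ℕ) : XI n ≃ YI n := (eX n).trans (eY n).symm

/-- square version of a matrix with rows `YI` and columns `XI` -/
def sqm {n : ℕ} {R : Type*} (A : Matrix (YI n) (XI n) R) : Matrix (YI n) (YI n) R :=
  A.submatrix id (ee n).symm

lemma sqm_mul_left {n : ℕ} (B : Matrix (YI n) (YI n) ℤ) (A : Matrix (YI n) (XI n) ℤ) :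
    sqm (B * A) = B * sqm A := by
  ext y y'; simp [sqm, Matrix.mul_apply]

lemma sqm_mul_right {n : ℕ} (A : Matrix (YI n) (XI n) ℤ) (B : Matrix (XI n) (XI n) ℤ) :
    sqm (A * B) = sqm A * B.submatrix (ee n).symm (ee n).symm := by
  rw [sqm, sqm, Matrix.submatrix_mul_equiv]

lemma mul_eq_sqm {n : ℕ} (A : Matrix (YI n) (XI n) ℤ) (B : Matrix (XI n) (YI n) ℤ) :
    A * B = sqm A * B.submatrix (ee n).symm id := by
  rw [sqm, Matrix.submatrix_mul_equiv]; simp

lemma absdet_KI (N : ℕ) : |(sqm (KI (N + 1))).det| = 1 := by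
  have h := KI_LI N
  rw [mul_eq_sqm] at h
  have h2 := congrArg Matrix.det h
  rw [Matrix.det_mul, Matrix.det_one] at h2
  exact Int.isUnit_iff_abs_eq.1 (IsUnit.of_mul_eq_one _ h2)

lemma absdet_Km (N : ℕ) : |(sqm (Km (N + 1))).det| = 2 ^ ((N + 1) * (N + 2) / 2) := by
  have h := congrArg (fun M => |(sqm M).det|) (Km_Krm N)
  simp only [sqm_mul_right, sqm_mul_left, Matrix.det_mul, abs_mul,
    Matrix.det_submatrix_equiv_self, Matrix.det_kronecker, Matrix.det_one, one_pow, one_mul,
    abs_pow, Krm_absdet, absdet_KI, Fintype.card_fin, mul_one] at h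
  rw [← pow_mul, ← pow_mul] at h
  have he : (N + 1) * (N + 1 + 1) / 2 * (N + 1) =
      N * (N + 1) / 2 * (N + 2) + (N + 1) * (N + 2) / 2 := by
    obtain ⟨r, hr⟩ := Nat.even_mul_succ_self N
    obtain ⟨t, ht⟩ := Nat.even_mul_succ_self (N + 1)
    have h1 : N * (N + 1) / 2 = r := by omega
    have h2 : (N + 1) * (N + 1 + 1) / 2 = t := by omega
    rw [h1, h2]
    have h4 : t = r + N + 1 := by
      have : (N + 1) * (N + 1 + 1) = N * (N + 1) + 2 * (N + 1) := by ring
      omega
    have h5 : r + r = N * N + N := by rw [← hr]; ring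
    rw [h4]
    nlinarith
  rw [he, pow_add] at h
  have hp : (0 : ℤ) < 2 ^ (N * (N + 1) / 2 * (N + 2)) := by positivity
  have : 2 ^ (N * (N + 1) / 2 * (N + 2)) * |(sqm (Km (N + 1))).det| =
      2 ^ (N * (N + 1) / 2 * (N + 2)) * 2 ^ ((N + 1) * (N + 2) / 2) := by
    rw [← h]; ring
  exact mul_left_cancel₀ hp.ne' this

/-- the inverse of the Kasteleyn matrix, scaled by `2^(N+1)` -/
noncomputable def Sm (N : ℕ) : Matrix (XI (N + 1)) (YI (N + 1)) ℤ :=
  ((1 : Matrix (Fin (N + 2)) (Fin (N + 2)) ℤ) ⊗ₖ Krm N) * LI (N + 1) *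
    ((1 : Matrix (Fin (N + 1)) (Fin (N + 1)) ℤ) ⊗ₖ Krm (N + 1))

lemma Km_Sm (N : ℕ) : Km (N + 1) * Sm N = (2 : ℤ) ^ (N + 1) • 1 := by
  unfold Sm
  rw [← Matrix.mul_assoc, ← Matrix.mul_assoc, Km_Krm, Matrix.mul_assoc _ (KI (N + 1)), KI_LI,
    Matrix.mul_one, ← Matrix.mul_kronecker_mul, Krm_sq, Matrix.one_mul, Matrix.kronecker_smul,
    Matrix.one_kronecker_one]

lemma Sm_apply (N κ : ℕ) (hκ : κ < N + 1) (j : Fin (N + 1)) (j0 : Fin (N + 2)) :
    Sm N (⟨κ + 1, by omega⟩, j) (⟨κ, hκ⟩, j0) =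
      ∑ b ∈ range (κ + 1), kr N j.val b * kr (N + 1) b j0.val := by
  unfold Sm
  rw [Matrix.mul_assoc, Matrix.mul_apply, Fintype.sum_prod_type]
  refine (Finset.sum_eq_single (⟨κ + 1, by omega⟩ : Fin (N + 2)) ?_ ?_).trans ?_
  · intro i _ hi
    apply Finset.sum_eq_zero
    intro t _
    rw [Matrix.kroneckerMap_apply, Matrix.one_apply_ne (Ne.symm hi)]; simp
  · intro h; exact absurd (Finset.mem_univ _) h
  have h1 : ∀ b : Fin (N + 1), (LI (N + 1) * ((1 : Matrix (Fin (N + 1)) (Fin (N + 1)) ℤ) ⊗ₖ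
      Krm (N + 1))) (⟨κ + 1, by omega⟩, b) (⟨κ, hκ⟩, j0) =
      if b.val ≤ κ then kr (N + 1) b.val j0.val else 0 := by
    intro b
    rw [Matrix.mul_apply, Fintype.sum_prod_type]
    refine (Finset.sum_eq_single (⟨κ, hκ⟩ : Fin (N + 1)) ?_ ?_).trans ?_
    · intro i _ hi
      apply Finset.sum_eq_zero
      intro t _
      rw [Matrix.kroneckerMap_apply, Matrix.one_apply_ne hi]; simp
    · intro h; exact absurd (Finset.mem_univ _) h
    simp only [LI, Matrix.of_apply, Matrix.kroneckerMap_apply, Matrix.one_apply_eq, one_mul,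
      Krm]
    have h2 : ∀ t : Fin (N + 2), (if t.val ≤ κ then
        (if κ + 1 ≤ κ + 1 ∧ b.val + κ + 1 = t.val + (κ + 1) then
          (-1 : ℤ) ^ (κ + 1 + κ + 1) else 0)
        else (if κ + 1 ≤ κ ∧ b.val + κ + 1 = t.val + (κ + 1) then
          (-1) ^ (κ + 1 + κ) else 0)) * kr (N + 1) t.val j0.val =
        (if t.val = b.val then (1 : ℤ) else 0) *
          (if t.val ≤ κ then kr (N + 1) t.val j0.val else 0) := by
      intro t
      have e1 : (-1 : ℤ) ^ (κ + 1 + κ + 1) = 1 := by
        rw [show κ + 1 + κ + 1 = 2 * (κ + 1) by ring, pow_mul]; norm_num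
      rw [e1]
      split_ifs <;> simp <;> omega
    refine (Finset.sum_congr rfl fun t _ => h2 t).trans ?_
    rw [sum_ind (N := N + 2) b.val (fun t => if t ≤ κ then kr (N + 1) t j0.val else 0),
      if_pos (by have := b.isLt; omega)]
  simp only [h1]
  simp only [Matrix.kroneckerMap_apply, Matrix.one_apply_eq, one_mul, Krm, Matrix.of_apply]
  have h3 : ∑ i : Fin (N + 1), kr N j.val i.val * (if i.val ≤ κ then kr (N + 1) i.val j0.val else 0) =
      ∑ b ∈ range (N + 1), kr N j.val b * (if b ≤ κ then kr (N + 1) b j0.val else 0) := by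
    rw [Finset.sum_range]
  rw [h3]
  symm
  apply Finset.sum_subset_zero_on_sdiff
  · intro b hb
    rw [Finset.mem_range] at *
    omega
  · intro b hb
    rw [Finset.mem_sdiff, Finset.mem_range, Finset.mem_range] at hb
    rw [if_neg (by omega), mul_zero]
  · intro b hb
    rw [Finset.mem_range] at hb
    rw [if_pos (by omega)]

/-- the matrix of the modified Kasteleyn weights -/
def Kk (n κ μ : ℕ) : Matrix (YI n) (XI n) ℤ := Matrix.of fun y x => kk κ μ y x

/-- the scaled inverse entry -/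
noncomputable def sv (N κ i j : ℕ) : ℚ :=
  (1 / 2 ^ (N + 1)) * ∑ b ∈ range (κ + 1), (kr N i b : ℚ) * (kr (N + 1) b j : ℚ)

lemma det_Kk (N κ μ : ℕ) (hκ : κ < N + 1) (hμ : μ + 2 ≤ N + 1) :
    ((sqm (Kk (N + 1) κ μ)).det : ℚ) = ((sqm (Km (N + 1))).det : ℚ) *
      (sv N κ μ (μ + 2) * (1 - 2 * sv N κ (μ + 1) (μ + 1)) +
        2 * (sv N κ μ (μ + 1) * sv N κ (μ + 1) (μ + 2))) := by
  set y1 : YI (N + 1) := (⟨κ, hκ⟩, ⟨μ + 2, by omega⟩) with hy1
  set y2 : YI (N + 1) := (⟨κ, hκ⟩, ⟨μ + 1, by omega⟩) with hy2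
  set x1 : XI (N + 1) := (⟨κ + 1, by omega⟩, ⟨μ, by omega⟩) with hx1
  set x2 : XI (N + 1) := (⟨κ + 1, by omega⟩, ⟨μ + 1, by omega⟩) with hx2
  have hx12 : x1 ≠ x2 := by
    rw [hx1, hx2]; simp
  set A : Matrix (YI (N + 1)) (YI (N + 1)) ℚ := (sqm (Km (N + 1))).map (Int.cast) with hA
  set B : Matrix (YI (N + 1)) (YI (N + 1)) ℚ := (sqm (Kk (N + 1) κ μ)).map (Int.cast) with hB
  have hdA : ((sqm (Km (N + 1))).det : ℚ) = A.det := by
    rw [hA]; exact Int.cast_det _
  have hdB : ((sqm (Kk (N + 1) κ μ)).det : ℚ) = B.det := by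
    rw [hB]; exact Int.cast_det _
  set S : Matrix (YI (N + 1)) (YI (N + 1)) ℚ :=
    Matrix.of fun y' y0 => (1 / 2 ^ (N + 1)) * (Sm N ((ee (N + 1)).symm y') y0 : ℚ) with hS
  have hAS : A * S = 1 := by
    have h := Km_Sm N
    rw [mul_eq_sqm] at h
    ext y y0
    have h2 := congrFun (congrFun h y) y0
    rw [Matrix.mul_apply] at h2 ⊢
    simp only [Matrix.smul_apply, smul_eq_mul, Matrix.submatrix_apply, id] at h2
    have h3 : ∑ j, A y j * S j y0 = (1 / 2 ^ (N + 1)) *
        ((∑ j, sqm (Km (N + 1)) y j * Sm N ((ee (N + 1)).symm j) y0 : ℤ) : ℚ) := by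
      push_cast
      rw [Finset.mul_sum]
      refine Finset.sum_congr rfl fun j _ => ?_
      simp only [hA, hS, Matrix.map_apply, Matrix.of_apply]
      ring
    rw [h3, h2]
    push_cast
    rw [← mul_assoc, one_div, inv_mul_cancel₀ (by positivity), one_mul, Matrix.one_apply,
      Matrix.one_apply]
    split_ifs <;> simp
  set e1 : YI (N + 1) := ee (N + 1) x1 with he1
  set e2 : YI (N + 1) := ee (N + 1) x2 with he2
  have he12 : e1 ≠ e2 := fun h => hx12 ((ee (N + 1)).injective h)
  set U : Matrix (YI (N + 1)) (Fin 2) ℚ := Matrix.of fun y' t =>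
    if t = 0 then S y' y1 - (if y' = e1 then 1 else 0) else -2 * S y' y2 with hU
  set V : Matrix (Fin 2) (YI (N + 1)) ℚ := Matrix.of fun t y' =>
    if t = 0 then (if y' = e1 then 1 else 0) else (if y' = e2 then 1 else 0) with hV
  have hAU0 : ∀ y, (A * U) y 0 = (if y = y1 then 1 else 0) - A y e1 := by
    intro y
    rw [Matrix.mul_apply]
    simp only [hU, Matrix.of_apply, if_true, mul_sub, Finset.sum_sub_distrib, mul_ite, mul_one,
      mul_zero, Finset.sum_ite_eq', Finset.mem_univ]
    have := congrFun (congrFun hAS y) y1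
    rw [Matrix.mul_apply, Matrix.one_apply] at this
    rw [this]
  have hAU1 : ∀ y, (A * U) y 1 = -2 * (if y = y2 then 1 else 0) := by
    intro y
    rw [Matrix.mul_apply]
    have h10 : ¬ ((1 : Fin 2) = 0) := by decide
    simp only [hU, Matrix.of_apply, h10, if_false]
    have := congrFun (congrFun hAS y) y2
    rw [Matrix.mul_apply, Matrix.one_apply] at this
    rw [← this, Finset.mul_sum]
    refine Finset.sum_congr rfl fun j _ => ?_
    ring
  have hBA : B = A * (1 + U * V) := by
    rw [Matrix.mul_add, Matrix.mul_one, ← Matrix.mul_assoc]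
    ext y y'
    rw [Matrix.add_apply, Matrix.mul_apply (M := A * U), Fin.sum_univ_two, hAU0, hAU1]
    have h10 : ¬ ((1 : Fin 2) = 0) := by decide
    simp only [hV, Matrix.of_apply, if_true, h10, if_false]
    obtain ⟨x, rfl⟩ := (ee (N + 1)).surjective y'
    have hxx1 : (ee (N + 1) x = e1) ↔ (x.1.val = κ + 1 ∧ x.2.val = μ) := by
      rw [he1, (ee (N + 1)).injective.eq_iff, hx1, Prod.ext_iff, Fin.ext_iff, Fin.ext_iff]
    have hxx2 : (ee (N + 1) x = e2) ↔ (x.1.val = κ + 1 ∧ x.2.val = μ + 1) := by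
      rw [he2, (ee (N + 1)).injective.eq_iff, hx2, Prod.ext_iff, Fin.ext_iff, Fin.ext_iff]
    have hyy1 : (y = y1) ↔ (y.1.val = κ ∧ y.2.val = μ + 2) := by
      rw [hy1, Prod.ext_iff, Fin.ext_iff, Fin.ext_iff]
    have hyy2 : (y = y2) ↔ (y.1.val = κ ∧ y.2.val = μ + 1) := by
      rw [hy2, Prod.ext_iff, Fin.ext_iff, Fin.ext_iff]
    have hBe : B y (ee (N + 1) x) = (kk κ μ y x : ℚ) := by
      simp [hB, sqm, Kk]
    have hAe : A y (ee (N + 1) x) = (Km (N + 1) y x : ℚ) := by
      simp [hA, sqm]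
    by_cases c1 : ee (N + 1) x = e1
    · have c2 : ¬ (ee (N + 1) x = e2) := by rw [c1]; exact he12
      have c3 := hxx1.1 c1
      rw [hBe, if_pos c1, if_neg c2, c1]
      unfold kk
      rw [if_pos c3]
      by_cases c4 : y = y1
      · rw [if_pos c4, if_pos (hyy1.1 c4)]; push_cast; ring
      · rw [if_neg c4, if_neg (fun h => c4 (hyy1.2 h))]; push_cast; ring
    · rw [hBe, if_neg c1, hAe]
      have c3 : ¬ (x.1.val = κ + 1 ∧ x.2.val = μ) := fun h => c1 (hxx1.2 h)
      unfold kk Km
      rw [if_neg c3]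
      simp only [Matrix.of_apply]
      by_cases c2 : ee (N + 1) x = e2
      · rw [if_pos c2]
        have c4 := hxx2.1 c2
        by_cases c5 : y = y2
        · have c6 := hyy2.1 c5
          rw [if_pos c5, if_pos ⟨c4.1, c4.2, c6.1, c6.2⟩, if_pos (by omega), if_pos (by omega),
            if_neg (by omega), if_neg (by omega)]
          push_cast; norm_num
        · have c6 : ¬ (y.1.val = κ ∧ y.2.val = μ + 1) := fun h => c5 (hyy2.2 h)
          rw [if_neg c5, if_neg (by omega)]
          split_ifs <;> first | omega | (push_cast; norm_num)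
      · rw [if_neg c2]
        have c4 : ¬ (x.1.val = κ + 1 ∧ x.2.val = μ + 1) := fun h => c2 (hxx2.2 h)
        rw [if_neg (by omega)]
        split_ifs <;> first | omega | (push_cast; norm_num)
  have hSv : ∀ (i j : ℕ) (hi : i < N + 1) (hj : j < N + 2),
      S (ee (N + 1) (⟨κ + 1, by omega⟩, ⟨i, hi⟩)) (⟨κ, hκ⟩, ⟨j, hj⟩) = sv N κ i j := by
    intro i j hi hj
    simp only [hS, Matrix.of_apply, Equiv.symm_apply_apply]
    rw [Sm_apply N κ hκ]
    unfold sv
    push_cast
    rfl
  rw [hdA, hdB, hBA, Matrix.det_mul, Matrix.det_one_add_mul_comm, Matrix.det_fin_two]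
  congr 1
  have h10 : ¬ ((1 : Fin 2) = 0) := by decide
  have v00 : (V * U) 0 0 = sv N κ μ (μ + 2) - 1 := by
    rw [Matrix.mul_apply]
    simp only [hV, hU, Matrix.of_apply, if_true, ite_mul, one_mul, zero_mul, Finset.sum_ite_eq',
      Finset.mem_univ]
    rw [he1, hx1, hy1, hSv]
  have v01 : (V * U) 0 1 = -2 * sv N κ μ (μ + 1) := by
    rw [Matrix.mul_apply]
    simp only [hV, hU, Matrix.of_apply, if_true, ite_mul, one_mul, zero_mul, Finset.sum_ite_eq',
      Finset.mem_univ, h10, if_false]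
    rw [he1, hx1, hy2, hSv]
  have v10 : (V * U) 1 0 = sv N κ (μ + 1) (μ + 2) := by
    rw [Matrix.mul_apply]
    simp only [hV, hU, Matrix.of_apply, if_true, ite_mul, one_mul, zero_mul, Finset.sum_ite_eq',
      Finset.mem_univ, h10, if_false]
    rw [if_neg (Ne.symm he12), he2, hx2, hy1, hSv, sub_zero]
  have v11 : (V * U) 1 1 = -2 * sv N κ (μ + 1) (μ + 1) := by
    rw [Matrix.mul_apply]
    simp only [hV, hU, Matrix.of_apply, if_true, ite_mul, one_mul, zero_mul, Finset.sum_ite_eq',
      Finset.mem_univ, h10, if_false]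
    rw [he2, hx2, hy2, hSv]
  simp only [Matrix.add_apply, v00, v01, v10, v11, Matrix.one_apply_eq]
  rw [Matrix.one_apply_ne (by decide), Matrix.one_apply_ne (by decide)]
  ring

end Pool.Agent.Work.MP_b90a94_co
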