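import Mathlib
import Pool.Agent.Work.MP_b90a94_co.Lin

/-! The number of good matchings as a determinant. -/

namespace Pool.Agent.Work.MP_b90a94_co

open Finset Matrix

lemma det_sqm_sum {n : ℕ} (A : Matrix (YI n) (XI n) ℤ) :
    ∃ s : ℤ, (s = 1 ∨ s = -1) ∧ (sqm A).det =
      s * ∑ σ : YI n ≃ XI n, ((Equiv.Perm.sign (toPerm σ) : ℤˣ) : ℤ) * ∏ y : YI n, A y (σ y) := by
  refine ⟨1, Or.inl rfl, ?_⟩
  rw [one_mul]
  -- transport to `Fin`
  have h1 : (sqm A).det = (Matrix.of fun a b : Fin (n * (n + 1)) =>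
      A ((eY n).symm b) ((eX n).symm a)).det := by
    have : (sqm A).det = ((sqm A).submatrix (eY n).symm (eY n).symm).det :=
      (Matrix.det_submatrix_equiv_self _ _).symm
    rw [this, ← Matrix.det_transpose]
    congr 1
    ext a b
    simp [sqm, ee]
  rw [h1, Matrix.det_apply']
  symm
  refine Fintype.sum_equiv (Equiv.equivCongr (eY n) (eX n)) _ _ ?_
  intro σ
  have h2 : (Equiv.equivCongr (eY n) (eX n)) σ = toPerm σ := rfl
  rw [h2]
  congr 1
  rw [← (eY n).symm.prod_comp]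
  refine Finset.prod_congr rfl fun i _ => ?_
  simp [toPerm]

/-- the number of good matchings is the absolute value of the determinant -/
theorem card_good {N κ μ : ℕ} (hκ : κ < N + 1) (hμ : μ + 2 ≤ N + 1) :
    (Fintype.card {σ : YI (N + 1) ≃ XI (N + 1) // Good κ μ σ} : ℤ) =
      |(sqm (Kk (N + 1) κ μ)).det| := by
  obtain ⟨s, hs, hdet⟩ := det_sqm_sum (Kk (N + 1) κ μ)
  obtain ⟨ε, hε, hsign⟩ := sign_const (n := N + 1) hκ hμ
  have h1 : ∑ σ : YI (N + 1) ≃ XI (N + 1), ((Equiv.Perm.sign (toPerm σ) : ℤˣ) : ℤ) *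
      ∏ y : YI (N + 1), Kk (N + 1) κ μ y (σ y) =
      ∑ σ : YI (N + 1) ≃ XI (N + 1), if Good κ μ σ then ε else 0 := by
    refine Finset.sum_congr rfl fun σ _ => ?_
    split_ifs with h
    · exact hsign σ h
    · have := prod_eq_zero hκ hμ σ h
      simp only [Kk, Matrix.of_apply]
      rw [this, mul_zero]
  rw [hdet, h1, ← Finset.sum_filter, Finset.sum_const, nsmul_eq_mul, Fintype.card_subtype,
    abs_mul, abs_mul]
  have hs' : |s| = 1 := by rcases hs with h | h <;> rw [h] <;> simp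
  have hε' : |ε| = 1 := by rcases hε with h | h <;> rw [h] <;> simp
  rw [hs', hε', one_mul, mul_one, Nat.abs_cast]

theorem card_good_eq {N κ μ : ℕ} (hκ : κ < N + 1) (hμ : μ + 2 ≤ N + 1) :
    (Fintype.card {σ : YI (N + 1) ≃ XI (N + 1) // Good κ μ σ} : ℚ) =
      2 ^ ((N + 1) * (N + 2) / 2) *
      |sv N κ μ (μ + 2) * (1 - 2 * sv N κ (μ + 1) (μ + 1)) +
        2 * (sv N κ μ (μ + 1) * sv N κ (μ + 1) (μ + 2))| := by
  have h1 := card_good hκ hμ
  have h2 := det_Kk N κ μ hκ hμ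
  have h3 := absdet_Km N
  have h4 : (Fintype.card {σ : YI (N + 1) ≃ XI (N + 1) // Good κ μ σ} : ℚ) =
      |((sqm (Kk (N + 1) κ μ)).det : ℚ)| := by
    rw [← Int.cast_abs, ← h1]; simp
  rw [h4, h2, abs_mul]
  congr 1
  rw [← Int.cast_abs, h3]; simp

end Pool.Agent.Work.MP_b90a94_co
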