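import Mathlib
import Pool.Agent.Work.MP_b90a94_co.Lin

/-! Evaluation of the central entries of the inverse Kasteleyn matrix. -/

namespace Pool.Agent.Work.MP_b90a94_co

open Finset

/-- central binomial coefficient as a rational -/
noncomputable def be (l : ℕ) : ℚ := (Nat.centralBinom l : ℚ)

lemma be_succ (l : ℕ) : ((l : ℚ) + 1) * be (l + 1) = 2 * (2 * l + 1) * be l := by
  unfold be
  have h := Nat.succ_mul_centralBinom_succ l
  have h2 : (((l + 1) * Nat.centralBinom (l + 1) : ℕ) : ℚ) =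
      ((2 * (2 * l + 1) * Nat.centralBinom l : ℕ) : ℚ) := by rw [h]
  push_cast at h2
  linarith

lemma be_zero : be 0 = 1 := by simp [be]

lemma be_pos (l : ℕ) : 0 < be l := by
  unfold be; exact_mod_cast Nat.centralBinom_pos l

lemma cc_zero_left (b k : ℕ) : cc 0 b k = (Nat.choose b k : ℤ) := by
  induction b generalizing k with
  | zero =>
    rw [cc_zero_zero]
    rcases k with _ | k
    · simp
    · simp
  | succ b ih =>
    rcases k with _ | k
    · rw [cc_right_zero, ih]; simp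
    · rw [cc_right_succ, ih, ih, Nat.choose_succ_succ]; push_cast; ring

/-- super Catalan evaluation -/
lemma g_eq (a b : ℕ) : (cc (2 * a) (2 * b) (a + b) : ℚ) * (Nat.choose (a + b) a : ℚ) =
    (-1) ^ a * be a * be b := by
  induction a generalizing b with
  | zero =>
    simp only [mul_zero, zero_add, Nat.choose_zero_right, Nat.cast_one, mul_one, pow_zero, one_mul]
    rw [cc_zero_left, be_zero, one_mul]
    simp [be, Nat.centralBinom]
  | succ a ih =>
    have h1 : cc (2 * (a + 1)) (2 * b) (a + 1 + b) =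
        cc (2 * a) (2 * (b + 1)) (a + (b + 1)) - 4 * cc (2 * a) (2 * b) (a + b) := by
      have e1 : 2 * (a + 1) = 2 * a + 1 + 1 := by ring
      have e2 : 2 * (b + 1) = 2 * b + 1 + 1 := by ring
      have e3 : a + 1 + b = a + b + 1 := by ring
      have e4 : a + (b + 1) = a + b + 1 := by ring
      rw [e1, e2, e3, e4, cc_left_succ, cc_right_succ]
      rcases Nat.eq_zero_or_pos (a + b) with h | h
      · have ha : a = 0 := by omega
        have hb : b = 0 := by omega
        subst ha hb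
        simp only [mul_zero, zero_add]
        rw [cc_left_succ, cc_left_zero, cc_right_succ, cc_right_zero, cc_zero_zero, cc_zero_zero]
        norm_num
      · obtain ⟨s, hs⟩ : ∃ s, a + b = s + 1 := ⟨a + b - 1, by omega⟩
        rw [hs, cc_left_succ, cc_left_succ, cc_right_succ, cc_right_succ]
        ring
    have i1 := ih (b + 1)
    have i2 := ih b
    have c1 : ((a + b + 1 : ℕ).choose a : ℚ) * (b + 1) = ((a + b).choose a : ℚ) * (a + b + 1) := by
      have := Nat.choose_mul_succ_eq (a + b) a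
      have e : a + b + 1 - a = b + 1 := by omega
      rw [e] at this
      have h2 : (((a + b).choose a * (a + b + 1) : ℕ) : ℚ) =
        (((a + b + 1).choose a * (b + 1) : ℕ) : ℚ) := by rw [this]
      push_cast at h2
      linarith
    have c2 : ((a + b + 1 : ℕ).choose (a + 1) : ℚ) * (a + 1) = ((a + b).choose a : ℚ) * (a + b + 1) := by
      have := Nat.add_one_mul_choose_eq (a + b) a
      have h2 : (((a + b + 1) * (a + b).choose a : ℕ) : ℚ) =
        (((a + b + 1).choose (a + 1) * (a + 1) : ℕ) : ℚ) := by rw [this]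
      push_cast at h2
      linarith
    have b1 := be_succ a
    have b2 := be_succ b
    have e3 : a + 1 + b = a + b + 1 := by ring
    have e4 : a + (b + 1) = a + b + 1 := by ring
    rw [h1, e3, e4]
    rw [e4] at i1
    push_cast
    have hC : ((a + b).choose a : ℚ) ≠ 0 := by
      have := Nat.choose_pos (show a ≤ a + b by omega)
      positivity
    have ha : (a : ℚ) + 1 ≠ 0 := by positivity
    have hb : (b : ℚ) + 1 ≠ 0 := by positivity
    have hab : (a : ℚ) + b + 1 ≠ 0 := by positivity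
    -- solve for everything
    have hc1 : ((a + b + 1 : ℕ).choose a : ℚ) = ((a + b).choose a : ℚ) * (a + b + 1) / (b + 1) := by
      rw [← c1]; field_simp
    have hc2 : ((a + b + 1 : ℕ).choose (a + 1) : ℚ) =
        ((a + b).choose a : ℚ) * (a + b + 1) / (a + 1) := by
      rw [← c2]; field_simp
    have hb1 : be (a + 1) = 2 * (2 * a + 1) * be a / (a + 1) := by rw [← b1]; field_simp
    have hb2 : be (b + 1) = 2 * (2 * b + 1) * be b / (b + 1) := by rw [← b2]; field_simp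
    have g1 : (cc (2 * a) (2 * (b + 1)) (a + b + 1) : ℚ) =
        (-1) ^ a * be a * be b * (2 * (2 * b + 1)) / (((a + b).choose a : ℚ) * (a + b + 1)) := by
      have : (cc (2 * a) (2 * (b + 1)) (a + b + 1) : ℚ) =
          ((-1) ^ a * be a * be (b + 1)) / ((a + b + 1 : ℕ).choose a : ℚ) := by
        rw [← i1, mul_div_assoc, div_self, mul_one]
        rw [hc1]; positivity
      rw [this, hc1, hb2]
      field_simp
    have g2 : (cc (2 * a) (2 * b) (a + b) : ℚ) =
        (-1) ^ a * be a * be b / ((a + b).choose a : ℚ) := by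
      rw [← i2, mul_div_assoc, div_self hC, mul_one]
    rw [g1, g2, hc2, hb1, pow_succ]
    field_simp
    ring

lemma cc_add (a b k : ℕ) : cc a (b + 1) k + cc (a + 1) b k = 2 * cc a b k := by
  rcases k with _ | k
  · rw [cc_left_zero, cc_right_zero]; ring
  · rw [cc_left_succ, cc_right_succ]; ring

lemma cc_diag (m : ℕ) : ∀ l, cc m m (2 * l) = (-1) ^ l * (Nat.choose m l : ℤ) ∧
    cc m m (2 * l + 1) = 0 := by
  induction m with
  | zero =>
    intro l
    rw [cc_zero_zero, cc_zero_zero]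
    rcases l with _ | l
    · simp
    · simp
  | succ m ih =>
    intro l
    rcases l with _ | l
    · refine ⟨?_, ?_⟩
      · rw [mul_zero, cc_left_zero, cc_right_zero]
        have := (ih 0).1
        rw [mul_zero] at this
        rw [this]; simp
      · rw [mul_zero, zero_add, cc_left_succ, cc_right_succ, cc_right_zero]
        have := (ih 0).2
        rw [mul_zero, zero_add] at this
        rw [this]; ring
    · refine ⟨?_, ?_⟩
      · have e : 2 * (l + 1) = 2 * l + 1 + 1 := by ring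
        have h1 := (ih (l + 1)).1
        rw [e] at h1
        rw [e, cc_left_succ, cc_right_succ, cc_right_succ, h1, (ih l).1, (ih l).2,
          Nat.choose_succ_succ]
        push_cast
        ring
      · have e : 2 * (l + 1) + 1 = 2 * l + 1 + 1 + 1 := by ring
        have h1 := (ih (l + 1)).2
        rw [e] at h1
        rw [e, cc_left_succ, cc_right_succ, cc_right_succ, h1, (ih l).2]
        ring

lemma cc_diag_right (m l : ℕ) : cc m (m + 1) (2 * l) = (-1) ^ l * (Nat.choose m l : ℤ) ∧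
    cc m (m + 1) (2 * l + 1) = (-1) ^ l * (Nat.choose m l : ℤ) := by
  refine ⟨?_, ?_⟩
  · rcases l with _ | l
    · rw [mul_zero, cc_right_zero]
      have := (cc_diag m 0).1
      rw [mul_zero] at this
      exact this
    · have e : 2 * (l + 1) = 2 * l + 1 + 1 := by ring
      have h1 := (cc_diag m (l + 1)).1
      rw [e] at h1
      rw [e, cc_right_succ, h1, (cc_diag m l).2, add_zero]
  · rw [cc_right_succ, (cc_diag m l).1, (cc_diag m l).2, zero_add]

lemma cc_diag_left (m l : ℕ) : cc (m + 1) m (2 * l) = (-1) ^ l * (Nat.choose m l : ℤ) ∧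
    cc (m + 1) m (2 * l + 1) = -((-1) ^ l * (Nat.choose m l : ℤ)) := by
  refine ⟨?_, ?_⟩
  · have h := cc_add m m (2 * l)
    rw [(cc_diag_right m l).1, (cc_diag m l).1] at h
    linarith
  · have h := cc_add m m (2 * l + 1)
    rw [(cc_diag_right m l).2, (cc_diag m l).2] at h
    linarith

lemma cc_diag_left2 (m l : ℕ) :
    cc (m + 2) m (2 * l) = (-1) ^ l * (2 * (Nat.choose m l : ℤ) - (Nat.choose (m + 1) l : ℤ)) ∧
    cc (m + 2) m (2 * l + 1) = -(2 * ((-1) ^ l * (Nat.choose m l : ℤ))) := by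
  refine ⟨?_, ?_⟩
  · have h := cc_add (m + 1) m (2 * l)
    rw [(cc_diag_left m l).1, (cc_diag (m + 1) l).1] at h
    linarith
  · have h := cc_add (m + 1) m (2 * l + 1)
    rw [(cc_diag_left m l).2, (cc_diag (m + 1) l).2] at h
    linarith

lemma half_low (l r : ℕ) : 2 * cc (2 * l) (2 * r + 1) (l + r) =
    cc (2 * l) (2 * (r + 1)) (l + (r + 1)) := by
  have h := cc_symm (2 * l) (2 * r + 1) (l + r + 1) (l + r) (by ring)
  have e : 2 * (r + 1) = 2 * r + 1 + 1 := by ring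
  have e2 : l + (r + 1) = l + r + 1 := by ring
  rw [e, e2, cc_right_succ, h, pow_mul]
  norm_num
  ring

lemma half_high (l r : ℕ) : 2 * cc (2 * l) (2 * r + 1) (l + r + 1) =
    cc (2 * l) (2 * (r + 1)) (l + (r + 1)) := by
  have h := cc_symm (2 * l) (2 * r + 1) (l + r + 1) (l + r) (by ring)
  rw [h, pow_mul]
  norm_num
  exact half_low l r

lemma centre_zero (l r : ℕ) : cc (2 * l + 1) (2 * r + 1) (l + r + 1) = 0 := by
  have h := cc_symm (2 * l + 1) (2 * r + 1) (l + r + 1) (l + r + 1) (by ring)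
  rw [pow_succ, pow_mul] at h
  norm_num at h
  linarith

lemma odd_left_high (l r : ℕ) : 2 * cc (2 * l + 1) (2 * r) (l + r + 1) =
    cc (2 * (l + 1)) (2 * r) (l + 1 + r) := by
  have h := cc_symm (2 * l + 1) (2 * r) (l + r) (l + r + 1) (by ring)
  rw [pow_succ, pow_mul] at h
  norm_num at h
  have e : 2 * (l + 1) = 2 * l + 1 + 1 := by ring
  have e2 : l + 1 + r = l + r + 1 := by ring
  have h2 : cc (2 * l + 1 + 1) (2 * r) (l + r + 1) =
    cc (2 * l + 1) (2 * r) (l + r + 1) - cc (2 * l + 1) (2 * r) (l + r) := cc_left_succ _ _ _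
  rw [e, e2, h2, h]
  ring

lemma odd_left_low (l r : ℕ) : 2 * cc (2 * l + 1) (2 * r) (l + r) =
    - cc (2 * (l + 1)) (2 * r) (l + 1 + r) := by
  have h := cc_symm (2 * l + 1) (2 * r) (l + r) (l + r + 1) (by ring)
  rw [pow_succ, pow_mul] at h
  norm_num at h
  rw [h, ← odd_left_high]
  ring

/-- next-to-central coefficient -/
lemma near_centre (l r : ℕ) :
    (cc (2 * l) (2 * (r + 1)) (l + r) : ℚ) * ((l : ℚ) + r + 2) =
      ((r : ℚ) + 1 - l) * (cc (2 * l) (2 * (r + 1)) (l + (r + 1)) : ℚ) := by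
  have hs := cc_symm (2 * l) (2 * (r + 1)) (l + r + 2) (l + r) (by ring)
  rw [pow_mul] at hs
  norm_num at hs
  have e1 : 2 * (r + 1 + 1) = 2 * (r + 1) + 1 + 1 := by ring
  have h1 : cc (2 * l) (2 * (r + 1 + 1)) (l + (r + 1 + 1)) =
      2 * cc (2 * l) (2 * (r + 1)) (l + r) + 2 * cc (2 * l) (2 * (r + 1)) (l + (r + 1)) := by
    have e2 : l + (r + 1 + 1) = l + r + 1 + 1 := by ring
    have e3 : l + (r + 1) = l + r + 1 := by ring
    rw [e1, e2, e3, cc_right_succ, cc_right_succ, cc_right_succ]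
    have : cc (2 * l) (2 * (r + 1)) (l + r + 1 + 1) = cc (2 * l) (2 * (r + 1)) (l + r) := hs
    rw [this]
    ring
  have g1 := g_eq l (r + 1)
  have g2 := g_eq l (r + 1 + 1)
  rw [h1] at g2
  have b2 := be_succ (r + 1)
  have c1 : ((l + (r + 1 + 1) : ℕ).choose l : ℚ) * (r + 2) =
      ((l + (r + 1)).choose l : ℚ) * (l + r + 2) := by
    have := Nat.choose_mul_succ_eq (l + (r + 1)) l
    have e : l + (r + 1) + 1 - l = r + 2 := by omega
    rw [e] at this
    have h2 : (((l + (r + 1)).choose l * (l + (r + 1) + 1) : ℕ) : ℚ) =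
      (((l + (r + 1) + 1).choose l * (r + 2) : ℕ) : ℚ) := by rw [this]
    have e3 : l + (r + 1 + 1) = l + (r + 1) + 1 := by ring
    rw [e3]
    push_cast at h2
    push_cast
    linarith
  push_cast at g2 b2
  set G := (cc (2 * l) (2 * (r + 1)) (l + (r + 1)) : ℚ)
  set H := (cc (2 * l) (2 * (r + 1)) (l + r) : ℚ)
  have hC : ((l + (r + 1)).choose l : ℚ) ≠ 0 := by
    have := Nat.choose_pos (show l ≤ l + (r + 1) by omega)
    positivity
  -- multiply g2 by (r+2)
  have h3 : (2 * H + 2 * G) * (((l + (r + 1)).choose l : ℚ) * (l + r + 2)) =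
      2 * (2 * (r + 1) + 1) * (G * ((l + (r + 1)).choose l : ℚ)) := by
    rw [← c1, g1]
    have : (2 * H + 2 * G) * (((l + (r + 1 + 1) : ℕ).choose l : ℚ) * (r + 2)) =
        ((2 * H + 2 * G) * ((l + (r + 1 + 1) : ℕ).choose l : ℚ)) * (r + 2) := by ring
    rw [this, g2]
    have : (-1 : ℚ) ^ l * be l * be (r + 1 + 1) * (r + 2) =
        (-1) ^ l * be l * ((r + 1 + 1) * be (r + 1 + 1)) := by ring
    rw [this, b2]
    ring
  have h4 : ((2 * H + 2 * G) * (l + r + 2) - 2 * (2 * (r + 1) + 1) * G) *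
      ((l + (r + 1)).choose l : ℚ) = 0 := by linarith
  have h5 := (mul_eq_zero.1 h4).resolve_right hC
  linarith

/-- the product of central binomials -/
noncomputable def AA (m l : ℕ) : ℚ := be l * be (m - l)

lemma neg_one_sq (l : ℕ) : ((-1 : ℚ) ^ l) * ((-1) ^ l) = 1 := by
  rw [← mul_pow]; norm_num

lemma g_mul (l r : ℕ) : (cc (2 * l) (2 * r) (l + r) : ℚ) *
    ((-1) ^ l * (Nat.choose (l + r) l : ℚ)) = be l * be r := by
  have h := g_eq l r
  have : (cc (2 * l) (2 * r) (l + r) : ℚ) * ((-1) ^ l * (Nat.choose (l + r) l : ℚ)) =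
      (-1) ^ l * ((cc (2 * l) (2 * r) (l + r) : ℚ) * (Nat.choose (l + r) l : ℚ)) := by ring
  rw [this, h]
  have : (-1 : ℚ) ^ l * ((-1) ^ l * be l * be r) = ((-1) ^ l * (-1) ^ l) * (be l * be r) := by ring
  rw [this, neg_one_sq, one_mul]

/-- pair term, odd order `2m+1` -/
noncomputable def PO (m i j l : ℕ) : ℚ :=
  (kr (2 * m) i (2 * l) : ℚ) * (kr (2 * m + 1) (2 * l) j : ℚ) +
    (kr (2 * m) i (2 * l + 1) : ℚ) * (kr (2 * m + 1) (2 * l + 1) j : ℚ)

lemma kr_odd1 (l r i : ℕ) : kr (2 * (l + r + 1)) i (2 * l) = cc (2 * l) (2 * (r + 1)) i := by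
  unfold kr
  have : 2 * (l + r + 1) - 2 * l = 2 * (r + 1) := by omega
  rw [this]

lemma kr_odd2 (l r i : ℕ) : kr (2 * (l + r + 1)) i (2 * l + 1) = cc (2 * l + 1) (2 * r + 1) i := by
  unfold kr
  have : 2 * (l + r + 1) - (2 * l + 1) = 2 * r + 1 := by omega
  rw [this]

lemma kr_odd3 (m b : ℕ) : kr (2 * m + 1) b m = cc m (m + 1) b := by
  unfold kr
  have : 2 * m + 1 - m = m + 1 := by omega
  rw [this]

lemma kr_odd4 (m b : ℕ) : kr (2 * m + 1) b (m + 1) = cc (m + 1) m b := by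
  unfold kr
  have : 2 * m + 1 - (m + 1) = m := by omega
  rw [this]

lemma PO_1 (m l : ℕ) (h : l < m) : PO m m m l = AA m l := by
  obtain ⟨r, rfl⟩ : ∃ r, m = l + r + 1 := ⟨m - l - 1, by omega⟩
  unfold PO AA
  rw [kr_odd1, kr_odd2, kr_odd3, kr_odd3, (cc_diag_right _ l).1, centre_zero]
  have e : l + r + 1 - l = r + 1 := by omega
  rw [e, ← g_mul l (r + 1)]
  push_cast
  have e2 : l + (r + 1) = l + r + 1 := by ring
  rw [e2]
  ring

lemma PO_2 (m l : ℕ) (h : l < m) : PO m m (m + 1) l = AA m l := by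
  obtain ⟨r, rfl⟩ : ∃ r, m = l + r + 1 := ⟨m - l - 1, by omega⟩
  unfold PO AA
  rw [kr_odd1, kr_odd2, kr_odd4, kr_odd4, (cc_diag_left _ l).1, centre_zero]
  have e : l + r + 1 - l = r + 1 := by omega
  rw [e, ← g_mul l (r + 1)]
  push_cast
  have e2 : l + (r + 1) = l + r + 1 := by ring
  rw [e2]
  ring

lemma PO_3 (m l : ℕ) (h : l < m) : PO m (m - 1) m l = AA m l := by
  obtain ⟨r, rfl⟩ : ∃ r, m = l + r + 1 := ⟨m - l - 1, by omega⟩
  unfold PO AA
  have e0 : l + r + 1 - 1 = l + r := by omega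
  rw [e0, kr_odd1, kr_odd2, kr_odd3, kr_odd3, (cc_diag_right _ l).1, (cc_diag_right _ l).2]
  have e : l + r + 1 - l = r + 1 := by omega
  rw [e, ← g_mul l (r + 1), ← half_low l r, ← cc_add]
  push_cast
  have e2 : l + (r + 1) = l + r + 1 := by ring
  rw [e2]
  have e3 : 2 * (r + 1) = 2 * r + 1 + 1 := by ring
  rw [e3]
  ring

lemma PO_4 (m l : ℕ) (h : l < m) :
    PO m (m - 1) (m + 1) l = AA m l * (2 * ((m : ℚ) - 2 * l) / (m + 1) - 1) := by
  obtain ⟨r, rfl⟩ : ∃ r, m = l + r + 1 := ⟨m - l - 1, by omega⟩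
  have hs : PO (l + r + 1) (l + r + 1 - 1) (l + r + 1 + 1) l +
      PO (l + r + 1) (l + r + 1 - 1) (l + r + 1) l =
      2 * ((cc (2 * l) (2 * (r + 1)) (l + r) : ℚ) *
        ((-1) ^ l * (Nat.choose (l + (r + 1)) l : ℚ))) := by
    unfold PO
    have e0 : l + r + 1 - 1 = l + r := by omega
    rw [e0, kr_odd1, kr_odd2, kr_odd3, kr_odd3, kr_odd4, kr_odd4, (cc_diag_right _ l).1,
      (cc_diag_right _ l).2, (cc_diag_left _ l).1, (cc_diag_left _ l).2]
    have e2 : l + (r + 1) = l + r + 1 := by ring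
    rw [e2]
    push_cast
    ring
  rw [PO_3 _ l h] at hs
  have hn := near_centre l r
  have hg := g_mul l (r + 1)
  have hA : AA (l + r + 1) l = be l * be (r + 1) := by
    unfold AA
    have e : l + r + 1 - l = r + 1 := by omega
    rw [e]
  have hm : (l : ℚ) + r + 2 ≠ 0 := by positivity
  have hcc : (cc (2 * l) (2 * (r + 1)) (l + r) : ℚ) =
      ((r : ℚ) + 1 - l) * (cc (2 * l) (2 * (r + 1)) (l + (r + 1)) : ℚ) / ((l : ℚ) + r + 2) := by
    rw [← hn]; field_simp
  rw [hcc] at hs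
  have h6 : 2 * (((r : ℚ) + 1 - l) * (cc (2 * l) (2 * (r + 1)) (l + (r + 1)) : ℚ) /
      ((l : ℚ) + r + 2) * ((-1) ^ l * (Nat.choose (l + (r + 1)) l : ℚ))) =
      2 * ((r : ℚ) + 1 - l) / ((l : ℚ) + r + 2) * (be l * be (r + 1)) := by
    rw [← hg]; ring
  rw [h6, ← hA] at hs
  have e7 : (((l + r + 1 : ℕ) : ℚ)) + 1 = (l : ℚ) + r + 2 := by push_cast; ring
  rw [e7]
  have e8 : (((l + r + 1 : ℕ) : ℚ)) - 2 * l = (r : ℚ) + 1 - l := by push_cast; ring
  rw [e8]
  linarith

/-- pair term, even order `2m`, `m = m' + 1` -/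
noncomputable def PE (m' i j l : ℕ) : ℚ :=
  (kr (2 * m' + 1) i (2 * l) : ℚ) * (kr (2 * m' + 1 + 1) (2 * l) j : ℚ) +
    (kr (2 * m' + 1) i (2 * l + 1) : ℚ) * (kr (2 * m' + 1 + 1) (2 * l + 1) j : ℚ)

lemma kr_even1 (l r i : ℕ) : kr (2 * (l + r) + 1) i (2 * l) = cc (2 * l) (2 * r + 1) i := by
  unfold kr
  have : 2 * (l + r) + 1 - 2 * l = 2 * r + 1 := by omega
  rw [this]

lemma kr_even2 (l r i : ℕ) : kr (2 * (l + r) + 1) i (2 * l + 1) = cc (2 * l + 1) (2 * r) i := by
  unfold kr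
  have : 2 * (l + r) + 1 - (2 * l + 1) = 2 * r := by omega
  rw [this]

lemma kr_even3 (m' b : ℕ) : kr (2 * m' + 1 + 1) b (m' + 1) = cc (m' + 1) (m' + 1) b := by
  unfold kr
  have : 2 * m' + 1 + 1 - (m' + 1) = m' + 1 := by omega
  rw [this]

lemma kr_even4 (m' b : ℕ) : kr (2 * m' + 1 + 1) b (m' + 2) = cc (m' + 2) m' b := by
  unfold kr
  have : 2 * m' + 1 + 1 - (m' + 2) = m' := by omega
  rw [this]

lemma PE_1 (m' l : ℕ) (h : l ≤ m') : PE m' (m' + 1) (m' + 1) l = AA (m' + 1) l / 2 := by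
  obtain ⟨r, rfl⟩ : ∃ r, m' = l + r := ⟨m' - l, by omega⟩
  unfold PE AA
  rw [kr_even1, kr_even2, kr_even3, kr_even3, (cc_diag _ l).1, (cc_diag _ l).2]
  have e : l + r + 1 - l = r + 1 := by omega
  rw [e, ← g_mul l (r + 1), ← half_high l r]
  push_cast
  have e2 : l + (r + 1) = l + r + 1 := by ring
  rw [e2]
  ring

lemma PE_2 (m' l : ℕ) (h : l ≤ m') : PE m' m' (m' + 1) l = AA (m' + 1) l / 2 := by
  obtain ⟨r, rfl⟩ : ∃ r, m' = l + r := ⟨m' - l, by omega⟩
  unfold PE AA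
  rw [kr_even1, kr_even2, kr_even3, kr_even3, (cc_diag _ l).1, (cc_diag _ l).2]
  have e : l + r + 1 - l = r + 1 := by omega
  rw [e, ← g_mul l (r + 1), ← half_low l r]
  push_cast
  have e2 : l + (r + 1) = l + r + 1 := by ring
  rw [e2]
  ring

lemma choose_rel1 (m l : ℕ) (h : l ≤ m) :
    ((Nat.choose m l : ℚ)) * (m + 1) = (Nat.choose (m + 1) l : ℚ) * ((m : ℚ) + 1 - l) := by
  have := Nat.choose_mul_succ_eq m l
  have h2 : ((m.choose l * (m + 1) : ℕ) : ℚ) = (((m + 1).choose l * (m + 1 - l) : ℕ) : ℚ) := by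
    rw [this]
  rw [Nat.cast_mul, Nat.cast_mul, Nat.cast_sub (by omega)] at h2
  push_cast at h2
  exact h2

lemma choose_rel2 (m l : ℕ) :
    ((Nat.choose m l : ℚ)) * (m + 1) = (Nat.choose (m + 1) (l + 1) : ℚ) * ((l : ℚ) + 1) := by
  have := Nat.add_one_mul_choose_eq m l
  have h2 : (((m + 1) * m.choose l : ℕ) : ℚ) = (((m + 1).choose (l + 1) * (l + 1) : ℕ) : ℚ) := by
    rw [this]
  push_cast at h2
  linarith

/-- even and odd parts for `j = m' + 2` -/
lemma PE_even_part (l r i : ℕ) (hi : i = l + r ∨ i = l + r + 1) :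
    (cc (2 * l) (2 * r + 1) i : ℚ) * (cc (l + r + 2) (l + r) (2 * l) : ℚ) =
      be l * be (r + 1) * (((r : ℚ) + 1 - l) / (2 * ((l : ℚ) + r + 1))) := by
  have h1 : (2 : ℚ) * (cc (2 * l) (2 * r + 1) i : ℚ) =
      (cc (2 * l) (2 * (r + 1)) (l + (r + 1)) : ℚ) := by
    rcases hi with rfl | rfl
    · exact_mod_cast half_low l r
    · exact_mod_cast half_high l r
  have h2 := g_mul l (r + 1)
  rw [← h1] at h2
  rw [(cc_diag_left2 _ l).1]
  have h3 := choose_rel1 (l + r) l (by omega)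
  push_cast at h3 ⊢
  have hm : (l : ℚ) + r + 1 ≠ 0 := by positivity
  have h4 : ((l + r).choose l : ℚ) = ((l + r + 1).choose l : ℚ) * ((l : ℚ) + r + 1 - l) /
      ((l : ℚ) + r + 1) := by
    rw [← h3]; field_simp
  rw [h4, ← h2]
  have e2 : l + (r + 1) = l + r + 1 := by ring
  rw [e2]
  field_simp
  ring

lemma PE_odd_part_high (l r : ℕ) :
    (cc (2 * l + 1) (2 * r) (l + r + 1) : ℚ) * (cc (l + r + 2) (l + r) (2 * l + 1) : ℚ) =
      be (l + 1) * be r * (((l : ℚ) + 1) / ((l : ℚ) + r + 1)) := by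
  have h1 : (2 : ℚ) * (cc (2 * l + 1) (2 * r) (l + r + 1) : ℚ) =
      (cc (2 * (l + 1)) (2 * r) (l + 1 + r) : ℚ) := by
    exact_mod_cast odd_left_high l r
  have h2 := g_mul (l + 1) r
  rw [← h1] at h2
  rw [(cc_diag_left2 _ l).2]
  have h3 := choose_rel2 (l + r) l
  push_cast at h3 ⊢
  have hm : (l : ℚ) + r + 1 ≠ 0 := by positivity
  have h4 : ((l + r).choose l : ℚ) = ((l + r + 1).choose (l + 1) : ℚ) * ((l : ℚ) + 1) /
      ((l : ℚ) + r + 1) := by
    rw [← h3]; field_simp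
  have e2 : l + 1 + r = l + r + 1 := by ring
  rw [e2] at h2
  rw [h4, ← h2, pow_succ]
  field_simp

lemma PE_odd_part_low (l r : ℕ) :
    (cc (2 * l + 1) (2 * r) (l + r) : ℚ) * (cc (l + r + 2) (l + r) (2 * l + 1) : ℚ) =
      - (be (l + 1) * be r * (((l : ℚ) + 1) / ((l : ℚ) + r + 1))) := by
  rw [← PE_odd_part_high]
  have h1 : (2 : ℚ) * (cc (2 * l + 1) (2 * r) (l + r + 1) : ℚ) =
      (cc (2 * (l + 1)) (2 * r) (l + 1 + r) : ℚ) := by
    exact_mod_cast odd_left_high l r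
  have h2 : (2 : ℚ) * (cc (2 * l + 1) (2 * r) (l + r) : ℚ) =
      - (cc (2 * (l + 1)) (2 * r) (l + 1 + r) : ℚ) := by
    exact_mod_cast odd_left_low l r
  have h3 : (cc (2 * l + 1) (2 * r) (l + r) : ℚ) = - (cc (2 * l + 1) (2 * r) (l + r + 1) : ℚ) := by
    linarith
  rw [h3]
  ring

lemma PE_3 (m' l : ℕ) (h : l ≤ m') : PE m' (m' + 1) (m' + 2) l =
    AA (m' + 1) l * (((m' : ℚ) + 1 - 2 * l) / (2 * ((m' : ℚ) + 1))) +
      AA (m' + 1) (l + 1) * (((l : ℚ) + 1) / ((m' : ℚ) + 1)) := by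
  obtain ⟨r, rfl⟩ : ∃ r, m' = l + r := ⟨m' - l, by omega⟩
  unfold PE AA
  rw [kr_even1, kr_even2, kr_even4, kr_even4]
  have e : l + r + 1 - l = r + 1 := by omega
  have e' : l + r + 1 - (l + 1) = r := by omega
  rw [e, e', PE_even_part l r _ (Or.inr rfl), PE_odd_part_high]
  push_cast
  ring

lemma PE_4 (m' l : ℕ) (h : l ≤ m') : PE m' m' (m' + 2) l =
    AA (m' + 1) l * (((m' : ℚ) + 1 - 2 * l) / (2 * ((m' : ℚ) + 1))) -
      AA (m' + 1) (l + 1) * (((l : ℚ) + 1) / ((m' : ℚ) + 1)) := by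
  obtain ⟨r, rfl⟩ : ∃ r, m' = l + r := ⟨m' - l, by omega⟩
  unfold PE AA
  rw [kr_even1, kr_even2, kr_even4, kr_even4]
  have e : l + r + 1 - l = r + 1 := by omega
  have e' : l + r + 1 - (l + 1) = r := by omega
  rw [e, e', PE_even_part l r _ (Or.inl rfl), PE_odd_part_low]
  push_cast
  ring

end Pool.Agent.Work.MP_b90a94_co
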