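import Mathlib
import Pool.Agent.Work.MP_b90a94_co.Eval
import Pool.Agent.Work.MP_b90a94_co.Count

/-! Summation and the final closed forms for the number of matchings. -/

namespace Pool.Agent.Work.MP_b90a94_co

open Finset

lemma sum_pairs (f : ℕ → ℚ) (t : ℕ) :
    ∑ b ∈ range (2 * t), f b = ∑ l ∈ range t, (f (2 * l) + f (2 * l + 1)) := by
  induction t with
  | zero => simp
  | succ t ih =>
    have e : 2 * (t + 1) = 2 * t + 1 + 1 := by ring
    rw [e, Finset.sum_range_succ, Finset.sum_range_succ, ih, Finset.sum_range_succ]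
    ring

lemma AA_symm (m l : ℕ) (h : l ≤ m) : AA m (m - l) = AA m l := by
  unfold AA
  have : m - (m - l) = l := by omega
  rw [this, mul_comm]

lemma AA_pos (m l : ℕ) : 0 < AA m l := mul_pos (be_pos _) (be_pos _)

lemma sum_l_AA (m : ℕ) : 2 * ∑ l ∈ range (m + 1), (l : ℚ) * AA m l =
    m * ∑ l ∈ range (m + 1), AA m l := by
  have h : ∑ l ∈ range (m + 1), (l : ℚ) * AA m l =
      ∑ l ∈ range (m + 1), ((m : ℚ) - l) * AA m l := by
    rw [← Finset.sum_range_reflect]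
    refine Finset.sum_congr rfl fun l hl => ?_
    rw [Finset.mem_range] at hl
    have e : m + 1 - 1 - l = m - l := by omega
    rw [e, AA_symm m l (by omega), Nat.cast_sub (by omega)]
  have h2 : ∑ l ∈ range (m + 1), ((m : ℚ) - l) * AA m l =
      m * ∑ l ∈ range (m + 1), AA m l - ∑ l ∈ range (m + 1), (l : ℚ) * AA m l := by
    rw [Finset.mul_sum, ← Finset.sum_sub_distrib]
    refine Finset.sum_congr rfl fun l _ => ?_
    ring
  linarith

lemma sum_AA (m : ℕ) : ∑ l ∈ range (m + 1), AA m l = 4 ^ m := by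
  induction m with
  | zero => simp [AA, be_zero]
  | succ m ih =>
    have h1 := sum_l_AA (m + 1)
    have h2 : ∑ l ∈ range (m + 1 + 1), (l : ℚ) * AA (m + 1) l =
        ∑ l ∈ range (m + 1), (2 * (2 * l + 1)) * AA m l := by
      rw [Finset.sum_range_succ']
      simp only [Nat.cast_zero, zero_mul, add_zero]
      refine Finset.sum_congr rfl fun l _ => ?_
      unfold AA
      have e : m + 1 - (l + 1) = m - l := by omega
      rw [e]
      push_cast
      have := be_succ l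
      calc ((l : ℚ) + 1) * (be (l + 1) * be (m - l)) = (((l : ℚ) + 1) * be (l + 1)) * be (m - l) := by
            ring
        _ = _ := by rw [this]; ring
    have h3 : ∑ l ∈ range (m + 1), (2 * (2 * (l : ℚ) + 1)) * AA m l =
        4 * ∑ l ∈ range (m + 1), (l : ℚ) * AA m l + 2 * ∑ l ∈ range (m + 1), AA m l := by
      rw [Finset.mul_sum, Finset.mul_sum, ← Finset.sum_add_distrib]
      refine Finset.sum_congr rfl fun l _ => ?_
      ring
    have h4 := sum_l_AA m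
    rw [ih] at h3 h4
    rw [h2, h3] at h1
    push_cast at h1
    have hm : (m : ℚ) + 1 ≠ 0 := by positivity
    have h5 : ((m : ℚ) + 1) * (∑ l ∈ range (m + 1 + 1), AA (m + 1) l - 4 ^ (m + 1)) = 0 := by
      rw [pow_succ]
      linarith
    have h6 := (mul_eq_zero.1 h5).resolve_left hm
    linarith

lemma half_odd (t : ℕ) : 2 * ∑ l ∈ range (t + 1), AA (2 * t + 1) l = 4 ^ (2 * t + 1) := by
  rw [← sum_AA (2 * t + 1)]
  have e : 2 * t + 1 + 1 = (t + 1) + (t + 1) := by ring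
  rw [e, Finset.sum_range_add (fun l => AA (2 * t + 1) l) (t + 1) (t + 1)]
  have : ∑ x ∈ range (t + 1), AA (2 * t + 1) (t + 1 + x) = ∑ l ∈ range (t + 1), AA (2 * t + 1) l := by
    rw [← Finset.sum_range_reflect]
    refine Finset.sum_congr rfl fun l hl => ?_
    rw [Finset.mem_range] at hl
    have e : t + 1 + (t + 1 - 1 - l) = 2 * t + 1 - l := by omega
    rw [e, AA_symm _ _ (by omega)]
  rw [this]; ring

lemma half_even (t : ℕ) : 2 * ∑ l ∈ range t, AA (2 * t) l + AA (2 * t) t = 4 ^ (2 * t) := by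
  rw [← sum_AA (2 * t)]
  have e : 2 * t + 1 = (t + 1) + t := by ring
  rw [e, Finset.sum_range_add (fun l => AA (2 * t) l) (t + 1) t, Finset.sum_range_succ]
  have : ∑ x ∈ range t, AA (2 * t) (t + 1 + x) = ∑ l ∈ range t, AA (2 * t) l := by
    rw [← Finset.sum_range_reflect]
    refine Finset.sum_congr rfl fun l hl => ?_
    rw [Finset.mem_range] at hl
    have e : t + 1 + (t - 1 - l) = 2 * t - l := by omega
    rw [e, AA_symm _ _ (by omega)]
  rw [this]; ring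

lemma tel (m : ℕ) : ∀ L, L ≤ m → ∑ l ∈ range (L + 1), ((m : ℚ) - 2 * l) * AA m l =
    (2 * L + 1) * ((m : ℚ) - L) * (be L * be (m - L)) := by
  intro L
  induction L with
  | zero => intro _; simp [AA]
  | succ L ih =>
    intro h
    rw [Finset.sum_range_succ, ih (by omega)]
    obtain ⟨r, rfl⟩ : ∃ r, m = L + 1 + r := ⟨m - (L + 1), by omega⟩
    unfold AA
    have e1 : L + 1 + r - L = r + 1 := by omega
    have e2 : L + 1 + r - (L + 1) = r := by omega
    rw [e1, e2]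
    have b1 := be_succ L
    have b2 := be_succ r
    push_cast
    have h1 : (2 * (L : ℚ) + 1) * (L + 1 + r - L) * (be L * be (r + 1)) =
        ((2 * (L : ℚ) + 1) * be L) * (((r : ℚ) + 1) * be (r + 1)) := by ring
    rw [h1, b2]
    have h2 : (2 * (L : ℚ) + 1) * be L = ((L : ℚ) + 1) * be (L + 1) / 2 := by linarith
    rw [h2]
    ring

/-! ### order `4t+3` -/

lemma sv_43 (t i j : ℕ) : sv (2 * (2 * t + 1)) (2 * t + 1) i j =
    (1 / 2 ^ (2 * (2 * t + 1) + 1)) * ∑ l ∈ range (t + 1), PO (2 * t + 1) i j l := by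
  unfold sv
  congr 1
  have e : 2 * t + 1 + 1 = 2 * (t + 1) := by ring
  rw [e, sum_pairs]
  rfl

theorem ratio_43 (t : ℕ) :
    sv (2 * (2 * t + 1)) (2 * t + 1) (2 * t) (2 * t + 2) *
      (1 - 2 * sv (2 * (2 * t + 1)) (2 * t + 1) (2 * t + 1) (2 * t + 1)) +
      2 * (sv (2 * (2 * t + 1)) (2 * t + 1) (2 * t) (2 * t + 1) *
        sv (2 * (2 * t + 1)) (2 * t + 1) (2 * t + 1) (2 * t + 2)) =
    (2 * t + 1) / 4 * (be t / 4 ^ t) * (be (t + 1) / 4 ^ (t + 1)) := by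
  set h := ∑ l ∈ range (t + 1), AA (2 * t + 1) l with hh
  have hhalf := half_odd t
  rw [← hh] at hhalf
  have s1 : sv (2 * (2 * t + 1)) (2 * t + 1) (2 * t + 1) (2 * t + 1) =
      (1 / 2 ^ (2 * (2 * t + 1) + 1)) * h := by
    rw [sv_43, hh]
    congr 1
    refine Finset.sum_congr rfl fun l hl => ?_
    rw [Finset.mem_range] at hl
    exact PO_1 _ _ (by omega)
  have s2 : sv (2 * (2 * t + 1)) (2 * t + 1) (2 * t + 1) (2 * t + 2) =
      (1 / 2 ^ (2 * (2 * t + 1) + 1)) * h := by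
    rw [sv_43, hh]
    congr 1
    refine Finset.sum_congr rfl fun l hl => ?_
    rw [Finset.mem_range] at hl
    exact PO_2 _ _ (by omega)
  have s3 : sv (2 * (2 * t + 1)) (2 * t + 1) (2 * t) (2 * t + 1) =
      (1 / 2 ^ (2 * (2 * t + 1) + 1)) * h := by
    rw [sv_43, hh]
    congr 1
    refine Finset.sum_congr rfl fun l hl => ?_
    rw [Finset.mem_range] at hl
    exact PO_3 (2 * t + 1) l (by omega)
  have s4 : sv (2 * (2 * t + 1)) (2 * t + 1) (2 * t) (2 * t + 2) =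
      (1 / 2 ^ (2 * (2 * t + 1) + 1)) * ((2 * t + 1) * be t * be (t + 1) - h) := by
    rw [sv_43]
    congr 1
    have h1 : ∑ l ∈ range (t + 1), PO (2 * t + 1) (2 * t) (2 * t + 2) l =
        ∑ l ∈ range (t + 1), (2 / (2 * (t : ℚ) + 2) * ((((2 * t + 1 : ℕ) : ℚ) - 2 * l) *
          AA (2 * t + 1) l) - AA (2 * t + 1) l) := by
      refine Finset.sum_congr rfl fun l hl => ?_
      rw [Finset.mem_range] at hl
      have := PO_4 (2 * t + 1) l (by omega)
      have e : 2 * t + 1 - 1 = 2 * t := by omega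
      rw [e] at this
      rw [this]
      push_cast
      have e2 : (2 * (t : ℚ) + 1 + 1) = 2 * t + 2 := by ring
      rw [e2]
      ring
    rw [h1, Finset.sum_sub_distrib, ← Finset.mul_sum, tel (2 * t + 1) t (by omega), ← hh]
    have e : 2 * t + 1 - t = t + 1 := by omega
    rw [e]
    push_cast
    have ht : (t : ℚ) + 1 ≠ 0 := by positivity
    have ht2 : 2 * (t : ℚ) + 2 ≠ 0 := by positivity
    field_simp
    ring
  rw [s1, s2, s3, s4]
  have h2 : h = 4 ^ (2 * t + 1) / 2 := by linarith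
  rw [h2]
  have e1 : (2 : ℚ) ^ (2 * (2 * t + 1) + 1) = 2 * (4 * 4 ^ t * 4 ^ t) := by
    have : (2 : ℚ) ^ (2 * (2 * t + 1) + 1) = 2 * 4 ^ (2 * t + 1) := by
      rw [pow_succ, pow_mul]; norm_num; ring
    rw [this, pow_succ, two_mul t, pow_add]; ring
  have e2 : (4 : ℚ) ^ (2 * t + 1) = 4 * 4 ^ t * 4 ^ t := by
    rw [pow_succ, two_mul t, pow_add]; ring
  rw [e1, e2, pow_succ (4 : ℚ) t]
  have h4 : (4 : ℚ) ^ t ≠ 0 := by positivity
  generalize (4 : ℚ) ^ t = q at *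
  field_simp
  ring

/-! ### order `4t+1`, `t ≥ 1` (write `m = 2t`, `μ + 1 = 2t`) -/

lemma sv_41 (t i j : ℕ) : sv (2 * (2 * t)) (2 * t) i j =
    (1 / 2 ^ (2 * (2 * t) + 1)) * (∑ l ∈ range t, PO (2 * t) i j l +
      (kr (2 * (2 * t)) i (2 * t) : ℚ) * (kr (2 * (2 * t) + 1) (2 * t) j : ℚ)) := by
  unfold sv
  congr 1
  rw [Finset.sum_range_succ, sum_pairs]
  rfl

lemma choose_centre (t : ℕ) : ((Nat.choose (2 * t) t : ℕ) : ℚ) = be t := by
  unfold be Nat.centralBinom; rfl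

lemma kr_diag_mid (t i : ℕ) : kr (2 * (2 * t)) i (2 * t) = cc (2 * t) (2 * t) i := by
  unfold kr
  have : 2 * (2 * t) - 2 * t = 2 * t := by omega
  rw [this]

theorem ratio_41 (t : ℕ) (ht : 1 ≤ t) :
    sv (2 * (2 * t)) (2 * t) (2 * t - 1) (2 * t + 1) *
      (1 - 2 * sv (2 * (2 * t)) (2 * t) (2 * t) (2 * t)) +
      2 * (sv (2 * (2 * t)) (2 * t) (2 * t - 1) (2 * t) *
        sv (2 * (2 * t)) (2 * t) (2 * t) (2 * t + 1)) =
    (2 * t + 1) / 4 * (be t / 4 ^ t) ^ 2 * (1 - (be t / 4 ^ t) ^ 2) := by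
  set h := ∑ l ∈ range t, AA (2 * t) l with hh
  have hhalf := half_even t
  have hAt : AA (2 * t) t = be t ^ 2 := by
    unfold AA
    have : 2 * t - t = t := by omega
    rw [this, sq]
  rw [← hh, hAt] at hhalf
  have d1 : cc (2 * t) (2 * t) (2 * t) = (-1) ^ t * (Nat.choose (2 * t) t : ℤ) := (cc_diag (2 * t) t).1
  have d2 : cc (2 * t) (2 * t) (2 * t - 1) = 0 := by
    have := (cc_diag (2 * t) (t - 1)).2
    have e : 2 * (t - 1) + 1 = 2 * t - 1 := by omega
    rw [e] at this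
    exact this
  have s1 : sv (2 * (2 * t)) (2 * t) (2 * t) (2 * t) =
      (1 / 2 ^ (2 * (2 * t) + 1)) * (h + be t ^ 2) := by
    rw [sv_41, hh]
    congr 1
    congr 1
    · refine Finset.sum_congr rfl fun l hl => ?_
      rw [Finset.mem_range] at hl
      exact PO_1 _ _ (by omega)
    · rw [kr_diag_mid, kr_odd3, d1, (cc_diag_right (2 * t) t).1]
      push_cast
      rw [choose_centre]
      have := neg_one_sq t
      linear_combination (be t ^ 2) * this
  have s2 : sv (2 * (2 * t)) (2 * t) (2 * t) (2 * t + 1) =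
      (1 / 2 ^ (2 * (2 * t) + 1)) * (h + be t ^ 2) := by
    rw [sv_41, hh]
    congr 1
    congr 1
    · refine Finset.sum_congr rfl fun l hl => ?_
      rw [Finset.mem_range] at hl
      exact PO_2 _ _ (by omega)
    · rw [kr_diag_mid, kr_odd4, d1, (cc_diag_left (2 * t) t).1]
      push_cast
      rw [choose_centre]
      have := neg_one_sq t
      linear_combination (be t ^ 2) * this
  have s3 : sv (2 * (2 * t)) (2 * t) (2 * t - 1) (2 * t) =
      (1 / 2 ^ (2 * (2 * t) + 1)) * h := by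
    rw [sv_41, hh, kr_diag_mid, d2]
    congr 1
    push_cast
    rw [zero_mul, add_zero]
    refine Finset.sum_congr rfl fun l hl => ?_
    rw [Finset.mem_range] at hl
    exact PO_3 (2 * t) l (by omega)
  have s4 : sv (2 * (2 * t)) (2 * t) (2 * t - 1) (2 * t + 1) =
      (1 / 2 ^ (2 * (2 * t) + 1)) * (2 * t * be t ^ 2 - h) := by
    rw [sv_41, kr_diag_mid, d2]
    congr 1
    push_cast
    rw [zero_mul, add_zero]
    have h1 : ∑ l ∈ range t, PO (2 * t) (2 * t - 1) (2 * t + 1) l =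
        ∑ l ∈ range t, (2 / (2 * (t : ℚ) + 1) * ((((2 * t : ℕ) : ℚ) - 2 * l) *
          AA (2 * t) l) - AA (2 * t) l) := by
      refine Finset.sum_congr rfl fun l hl => ?_
      rw [Finset.mem_range] at hl
      rw [PO_4 (2 * t) l (by omega)]
      push_cast
      ring
    have htel := tel (2 * t) t (by omega)
    rw [Finset.sum_range_succ] at htel
    have e : 2 * t - t = t := by omega
    rw [e] at htel
    push_cast at htel
    have htel2 : ∑ l ∈ range t, ((((2 * t : ℕ) : ℚ) - 2 * l) * AA (2 * t) l) =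
        (2 * t + 1) * t * be t ^ 2 := by
      push_cast
      linear_combination htel
    rw [h1, Finset.sum_sub_distrib, ← Finset.mul_sum, htel2, ← hh]
    have ht2 : 2 * (t : ℚ) + 1 ≠ 0 := by positivity
    field_simp
  rw [s1, s2, s3, s4]
  have e1 : (2 : ℚ) ^ (2 * (2 * t) + 1) = 2 * (4 ^ t * 4 ^ t) := by
    have : (2 : ℚ) ^ (2 * (2 * t) + 1) = 2 * 4 ^ (2 * t) := by
      rw [pow_succ, pow_mul]; norm_num; ring
    rw [this, two_mul t, pow_add]
  have e2 : (4 : ℚ) ^ (2 * t) = 4 ^ t * 4 ^ t := by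
    rw [two_mul t, pow_add]
  rw [e2] at hhalf
  rw [e1]
  have h4 : (4 : ℚ) ^ t ≠ 0 := by positivity
  generalize (4 : ℚ) ^ t = q at *
  have h2 : h = (q * q - be t ^ 2) / 2 := by linarith
  rw [h2]
  field_simp
  ring

/-! ### order `4t+2` (`m = 2t+1`, `m' = 2t`) -/

theorem ratio_42 (t : ℕ) :
    sv (2 * (2 * t) + 1) (2 * t) (2 * t) (2 * t + 2) *
      (1 - 2 * sv (2 * (2 * t) + 1) (2 * t) (2 * t + 1) (2 * t + 1)) +
      2 * (sv (2 * (2 * t) + 1) (2 * t) (2 * t) (2 * t + 1) *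
        sv (2 * (2 * t) + 1) (2 * t) (2 * t + 1) (2 * t + 2)) =
    (2 * t + 1) / 4 * (be t / 4 ^ t) ^ 2 := by
  set h := ∑ l ∈ range (t + 1), AA (2 * t + 1) l with hh
  have hhalf := half_odd t
  rw [← hh] at hhalf
  have sv_42 : ∀ i j, sv (2 * (2 * t) + 1) (2 * t) i j =
    (1 / 2 ^ (2 * (2 * t) + 1 + 1)) * (∑ l ∈ range t, PE (2 * t) i j l +
      (kr (2 * (2 * t) + 1) i (2 * t) : ℚ) * (kr (2 * (2 * t) + 1 + 1) (2 * t) j : ℚ)) := by
    intro i j
    unfold sv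
    congr 1
    rw [Finset.sum_range_succ, sum_pairs]
    rfl
  have k1 : ∀ i, kr (2 * (2 * t) + 1) i (2 * t) = cc (2 * t) (2 * t + 1) i := by
    intro i
    unfold kr
    have : 2 * (2 * t) + 1 - 2 * t = 2 * t + 1 := by omega
    rw [this]
  have last1 : ∀ i, (i = t + t ∨ i = t + t + 1) →
      (kr (2 * (2 * t) + 1) i (2 * t) : ℚ) * (kr (2 * (2 * t) + 1 + 1) (2 * t) (2 * t + 1) : ℚ) =
      AA (2 * t + 1) t / 2 := by
    intro i hi
    rw [k1, kr_even3, (cc_diag _ t).1]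
    have h1 : (2 : ℚ) * (cc (2 * t) (2 * t + 1) i : ℚ) =
        (cc (2 * t) (2 * (t + 1)) (t + (t + 1)) : ℚ) := by
      rcases hi with rfl | rfl
      · exact_mod_cast half_low t t
      · exact_mod_cast half_high t t
    have h2 := g_mul t (t + 1)
    rw [← h1] at h2
    unfold AA
    have e : 2 * t + 1 - t = t + 1 := by omega
    have e2 : t + (t + 1) = 2 * t + 1 := by ring
    rw [e, ← h2, e2]
    push_cast
    ring
  have last2 : ∀ i, (i = t + t ∨ i = t + t + 1) →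
      (kr (2 * (2 * t) + 1) i (2 * t) : ℚ) * (kr (2 * (2 * t) + 1 + 1) (2 * t) (2 * t + 2) : ℚ) =
      AA (2 * t + 1) t * (1 / (2 * (2 * (t : ℚ) + 1))) := by
    intro i hi
    have := PE_even_part t t i hi
    rw [k1, kr_even4]
    have e2 : t + t = 2 * t := by ring
    rw [e2] at this
    rw [this]
    unfold AA
    have e : 2 * t + 1 - t = t + 1 := by omega
    rw [e]
    have e3 : (t : ℚ) + 1 - t = 1 := by ring
    have e4 : (t : ℚ) + t + 1 = 2 * t + 1 := by ring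
    rw [e3, e4]
  have s1 : sv (2 * (2 * t) + 1) (2 * t) (2 * t + 1) (2 * t + 1) =
      (1 / 2 ^ (2 * (2 * t) + 1 + 1)) * (h / 2) := by
    rw [sv_42, last1 _ (Or.inr (by ring)), hh, Finset.sum_range_succ, add_div, Finset.sum_div]
    congr 2
    refine Finset.sum_congr rfl fun l hl => ?_
    rw [Finset.mem_range] at hl
    exact PE_1 _ _ (by omega)
  have s2 : sv (2 * (2 * t) + 1) (2 * t) (2 * t) (2 * t + 1) =
      (1 / 2 ^ (2 * (2 * t) + 1 + 1)) * (h / 2) := by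
    rw [sv_42, last1 _ (Or.inl (by ring)), hh, Finset.sum_range_succ, add_div, Finset.sum_div]
    congr 2
    refine Finset.sum_congr rfl fun l hl => ?_
    rw [Finset.mem_range] at hl
    exact PE_2 _ _ (by omega)
  -- W and E
  have hW : ∑ l ∈ range (t + 1), (((2 * t + 1 : ℕ) : ℚ) - 2 * l) * AA (2 * t + 1) l =
      (2 * t + 1) * (t + 1) * (be t * be (t + 1)) := by
    rw [tel (2 * t + 1) t (by omega)]
    have e : 2 * t + 1 - t = t + 1 := by omega
    rw [e]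
    push_cast
    ring
  have hE : ∑ l ∈ range t, ((l : ℚ) + 1) * AA (2 * t + 1) (l + 1) =
      ((2 * t + 1) * h - (2 * t + 1) * (t + 1) * (be t * be (t + 1))) / 2 := by
    have h1 : ∑ l ∈ range t, ((l : ℚ) + 1) * AA (2 * t + 1) (l + 1) =
        ∑ l ∈ range (t + 1), (l : ℚ) * AA (2 * t + 1) l := by
      rw [Finset.sum_range_succ' _ t]
      simp
    rw [h1, ← hW, hh, Finset.mul_sum, ← Finset.sum_sub_distrib, Finset.sum_div]
    refine Finset.sum_congr rfl fun l _ => ?_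
    push_cast
    ring
  have hT : (2 * (t : ℚ) + 1) ≠ 0 := by positivity
  have s34 : ∀ (ε : ℚ), ∑ l ∈ range t, (AA (2 * t + 1) l * (((2 * t : ℕ) : ℚ) + 1 - 2 * l) /
      (2 * (((2 * t : ℕ) : ℚ) + 1)) + ε * (AA (2 * t + 1) (l + 1) * (((l : ℚ) + 1) /
      (((2 * t : ℕ) : ℚ) + 1)))) + AA (2 * t + 1) t * (1 / (2 * (2 * (t : ℚ) + 1))) =
      ((2 * t + 1) * (t + 1) * (be t * be (t + 1))) / (2 * (2 * t + 1)) +
      ε * (((2 * t + 1) * h - (2 * t + 1) * (t + 1) * (be t * be (t + 1))) / 2) / (2 * t + 1) := by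
    intro ε
    rw [← hE, ← hW, Finset.sum_add_distrib, Finset.mul_sum, Finset.sum_div, Finset.sum_div,
      Finset.sum_range_succ (fun l => (((2 * t + 1 : ℕ) : ℚ) - 2 * l) * AA (2 * t + 1) l /
        (2 * (2 * (t : ℚ) + 1)))]
    have e1 : ∑ x ∈ range t, AA (2 * t + 1) x * (((2 * t : ℕ) : ℚ) + 1 - 2 * x) /
        (2 * (((2 * t : ℕ) : ℚ) + 1)) = ∑ i ∈ range t, (((2 * t + 1 : ℕ) : ℚ) - 2 * i) *
          AA (2 * t + 1) i / (2 * (2 * (t : ℚ) + 1)) := by
      refine Finset.sum_congr rfl fun l _ => ?_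
      push_cast
      ring
    have e2 : ∑ x ∈ range t, ε * (AA (2 * t + 1) (x + 1) * (((x : ℚ) + 1) /
        (((2 * t : ℕ) : ℚ) + 1))) = ∑ i ∈ range t, ε * (((i : ℚ) + 1) * AA (2 * t + 1) (i + 1)) /
          (2 * (t : ℚ) + 1) := by
      refine Finset.sum_congr rfl fun l _ => ?_
      push_cast
      ring
    rw [e1, e2]
    push_cast
    ring
  have s3 : sv (2 * (2 * t) + 1) (2 * t) (2 * t + 1) (2 * t + 2) =
      (1 / 2 ^ (2 * (2 * t) + 1 + 1)) * (h / 2) := by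
    rw [sv_42, last2 _ (Or.inr (by ring))]
    congr 1
    have := s34 1
    have h1 : ∑ l ∈ range t, PE (2 * t) (2 * t + 1) (2 * t + 2) l =
        ∑ l ∈ range t, (AA (2 * t + 1) l * (((2 * t : ℕ) : ℚ) + 1 - 2 * l) /
      (2 * (((2 * t : ℕ) : ℚ) + 1)) + 1 * (AA (2 * t + 1) (l + 1) * (((l : ℚ) + 1) /
      (((2 * t : ℕ) : ℚ) + 1)))) := by
      refine Finset.sum_congr rfl fun l hl => ?_
      rw [Finset.mem_range] at hl
      rw [PE_3 _ _ (by omega)]
      ring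
    rw [h1, this]
    field_simp
    ring
  have s4 : sv (2 * (2 * t) + 1) (2 * t) (2 * t) (2 * t + 2) =
      (1 / 2 ^ (2 * (2 * t) + 1 + 1)) * ((t + 1) * (be t * be (t + 1)) - h / 2) := by
    rw [sv_42, last2 _ (Or.inl (by ring))]
    congr 1
    have := s34 (-1)
    have h1 : ∑ l ∈ range t, PE (2 * t) (2 * t) (2 * t + 2) l =
        ∑ l ∈ range t, (AA (2 * t + 1) l * (((2 * t : ℕ) : ℚ) + 1 - 2 * l) /
      (2 * (((2 * t : ℕ) : ℚ) + 1)) + (-1) * (AA (2 * t + 1) (l + 1) * (((l : ℚ) + 1) /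
      (((2 * t : ℕ) : ℚ) + 1)))) := by
      refine Finset.sum_congr rfl fun l hl => ?_
      rw [Finset.mem_range] at hl
      rw [PE_4 _ _ (by omega)]
      ring
    rw [h1, this]
    field_simp
    ring
  rw [s1, s2, s3, s4]
  have e1 : (2 : ℚ) ^ (2 * (2 * t) + 1 + 1) = 4 * (4 ^ t * 4 ^ t) := by
    have : (2 : ℚ) ^ (2 * (2 * t) + 1 + 1) = 4 * 4 ^ (2 * t) := by
      rw [pow_succ, pow_succ, pow_mul]; norm_num; ring
    rw [this, two_mul t, pow_add]
  have e2 : (4 : ℚ) ^ (2 * t + 1) = 4 * (4 ^ t * 4 ^ t) := by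
    rw [pow_succ, two_mul t, pow_add]; ring
  rw [e2] at hhalf
  rw [e1]
  have hb := be_succ t
  have h4 : (4 : ℚ) ^ t ≠ 0 := by positivity
  generalize (4 : ℚ) ^ t = q at *
  have h2 : h = 2 * (q * q) := by linarith
  have h3 : (t + 1) * (be t * be (t + 1)) = 2 * (2 * t + 1) * be t ^ 2 := by
    calc ((t : ℚ) + 1) * (be t * be (t + 1)) = be t * (((t : ℚ) + 1) * be (t + 1)) := by ring
      _ = _ := by rw [hb]; ring
  rw [h2, h3]
  field_simp
  ring

/-! ### order `4t+4` (`m = 2t+2`, `m' = 2t+1`) -/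

theorem ratio_40 (t : ℕ) :
    sv (2 * (2 * t + 1) + 1) (2 * t + 1) (2 * t + 1) (2 * t + 3) *
      (1 - 2 * sv (2 * (2 * t + 1) + 1) (2 * t + 1) (2 * t + 2) (2 * t + 2)) +
      2 * (sv (2 * (2 * t + 1) + 1) (2 * t + 1) (2 * t + 1) (2 * t + 2) *
        sv (2 * (2 * t + 1) + 1) (2 * t + 1) (2 * t + 2) (2 * t + 3)) =
    (t + 1) / 2 * (be (t + 1) / 4 ^ (t + 1)) ^ 2 * (1 + (be (t + 1) / 4 ^ (t + 1)) ^ 2) := by
  set h := ∑ l ∈ range (t + 1), AA (2 * t + 2) l with hh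
  have hhalf := half_even (t + 1)
  have hAt : AA (2 * t + 2) (t + 1) = be (t + 1) ^ 2 := by
    unfold AA
    have : 2 * t + 2 - (t + 1) = t + 1 := by omega
    rw [this, sq]
  have em : 2 * (t + 1) = 2 * t + 2 := by ring
  rw [em, ← hh, hAt] at hhalf
  have sv_40 : ∀ i j, sv (2 * (2 * t + 1) + 1) (2 * t + 1) i j =
    (1 / 2 ^ (2 * (2 * t + 1) + 1 + 1)) * ∑ l ∈ range (t + 1), PE (2 * t + 1) i j l := by
    intro i j
    unfold sv
    congr 1
    have e : 2 * t + 1 + 1 = 2 * (t + 1) := by ring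
    rw [e, sum_pairs]
    rfl
  have s1 : sv (2 * (2 * t + 1) + 1) (2 * t + 1) (2 * t + 2) (2 * t + 2) =
      (1 / 2 ^ (2 * (2 * t + 1) + 1 + 1)) * (h / 2) := by
    rw [sv_40, hh, Finset.sum_div]
    congr 1
    refine Finset.sum_congr rfl fun l hl => ?_
    rw [Finset.mem_range] at hl
    exact PE_1 (2 * t + 1) l (by omega)
  have s2 : sv (2 * (2 * t + 1) + 1) (2 * t + 1) (2 * t + 1) (2 * t + 2) =
      (1 / 2 ^ (2 * (2 * t + 1) + 1 + 1)) * (h / 2) := by
    rw [sv_40, hh, Finset.sum_div]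
    congr 1
    refine Finset.sum_congr rfl fun l hl => ?_
    rw [Finset.mem_range] at hl
    exact PE_2 (2 * t + 1) l (by omega)
  have hW : ∑ l ∈ range (t + 1), (((2 * t + 2 : ℕ) : ℚ) - 2 * l) * AA (2 * t + 2) l =
      (2 * t + 3) * (t + 1) * be (t + 1) ^ 2 := by
    have htel := tel (2 * t + 2) (t + 1) (by omega)
    rw [Finset.sum_range_succ] at htel
    have e : 2 * t + 2 - (t + 1) = t + 1 := by omega
    rw [e] at htel
    push_cast at htel ⊢
    linear_combination htel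
  have hE : ∑ l ∈ range (t + 1), ((l : ℚ) + 1) * AA (2 * t + 2) (l + 1) =
      ((2 * t + 2) * h - (2 * t + 3) * (t + 1) * be (t + 1) ^ 2) / 2 +
        (t + 1) * be (t + 1) ^ 2 := by
    have h1 : ∑ l ∈ range (t + 1), ((l : ℚ) + 1) * AA (2 * t + 2) (l + 1) =
        ∑ l ∈ range (t + 1 + 1), (l : ℚ) * AA (2 * t + 2) l := by
      rw [Finset.sum_range_succ' _ (t + 1)]
      simp
    rw [h1, Finset.sum_range_succ, hAt]
    push_cast
    congr 1
    rw [← hW, hh, Finset.mul_sum, ← Finset.sum_sub_distrib, Finset.sum_div]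
    refine Finset.sum_congr rfl fun l _ => ?_
    push_cast
    ring
  have s34 : ∀ (ε : ℚ), ∑ l ∈ range (t + 1), (AA (2 * t + 2) l * (((2 * t + 1 : ℕ) : ℚ) + 1 - 2 * l) /
      (2 * (((2 * t + 1 : ℕ) : ℚ) + 1)) + ε * (AA (2 * t + 2) (l + 1) * (((l : ℚ) + 1) /
      (((2 * t + 1 : ℕ) : ℚ) + 1)))) =
      ((2 * t + 3) * (t + 1) * be (t + 1) ^ 2) / (2 * (2 * t + 2)) +
      ε * (((2 * t + 2) * h - (2 * t + 3) * (t + 1) * be (t + 1) ^ 2) / 2 +
        (t + 1) * be (t + 1) ^ 2) / (2 * t + 2) := by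
    intro ε
    rw [← hE, ← hW, Finset.sum_add_distrib, Finset.mul_sum, Finset.sum_div, Finset.sum_div]
    congr 1
    · refine Finset.sum_congr rfl fun l _ => ?_
      push_cast
      ring
    · refine Finset.sum_congr rfl fun l _ => ?_
      push_cast
      ring
  have hT : (2 * (t : ℚ) + 2) ≠ 0 := by positivity
  have hT1 : ((t : ℚ) + 1) ≠ 0 := by positivity
  have s3 : sv (2 * (2 * t + 1) + 1) (2 * t + 1) (2 * t + 2) (2 * t + 3) =
      (1 / 2 ^ (2 * (2 * t + 1) + 1 + 1)) * ((h + be (t + 1) ^ 2) / 2) := by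
    rw [sv_40]
    congr 1
    have := s34 1
    have h1 : ∑ l ∈ range (t + 1), PE (2 * t + 1) (2 * t + 2) (2 * t + 3) l =
        ∑ l ∈ range (t + 1), (AA (2 * t + 2) l * (((2 * t + 1 : ℕ) : ℚ) + 1 - 2 * l) /
      (2 * (((2 * t + 1 : ℕ) : ℚ) + 1)) + 1 * (AA (2 * t + 2) (l + 1) * (((l : ℚ) + 1) /
      (((2 * t + 1 : ℕ) : ℚ) + 1)))) := by
      refine Finset.sum_congr rfl fun l hl => ?_
      rw [Finset.mem_range] at hl
      rw [PE_3 (2 * t + 1) l (by omega)]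
      ring
    rw [h1, this]
    field_simp
    ring
  have s4 : sv (2 * (2 * t + 1) + 1) (2 * t + 1) (2 * t + 1) (2 * t + 3) =
      (1 / 2 ^ (2 * (2 * t + 1) + 1 + 1)) * ((t + 1) * be (t + 1) ^ 2 - h / 2) := by
    rw [sv_40]
    congr 1
    have := s34 (-1)
    have h1 : ∑ l ∈ range (t + 1), PE (2 * t + 1) (2 * t + 1) (2 * t + 3) l =
        ∑ l ∈ range (t + 1), (AA (2 * t + 2) l * (((2 * t + 1 : ℕ) : ℚ) + 1 - 2 * l) /
      (2 * (((2 * t + 1 : ℕ) : ℚ) + 1)) + (-1) * (AA (2 * t + 2) (l + 1) * (((l : ℚ) + 1) /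
      (((2 * t + 1 : ℕ) : ℚ) + 1)))) := by
      refine Finset.sum_congr rfl fun l hl => ?_
      rw [Finset.mem_range] at hl
      rw [PE_4 (2 * t + 1) l (by omega)]
      ring
    rw [h1, this]
    field_simp
    ring
  rw [s1, s2, s3, s4]
  have e1 : (2 : ℚ) ^ (2 * (2 * t + 1) + 1 + 1) = 4 ^ (t + 1) * 4 ^ (t + 1) := by
    have : 2 * (2 * t + 1) + 1 + 1 = 2 * ((t + 1) + (t + 1)) := by ring
    rw [this, pow_mul, pow_add]; norm_num
  have e2 : (4 : ℚ) ^ (2 * t + 2) = 4 ^ (t + 1) * 4 ^ (t + 1) := by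
    have : 2 * t + 2 = (t + 1) + (t + 1) := by ring
    rw [this, pow_add]
  rw [e2] at hhalf
  rw [e1]
  have h4 : (4 : ℚ) ^ (t + 1) ≠ 0 := by positivity
  generalize (4 : ℚ) ^ (t + 1) = q at *
  have h2 : h = (q * q - be (t + 1) ^ 2) / 2 := by linarith
  rw [h2]
  field_simp
  ring

/-! ### the number of matchings -/

/-- number of good matchings -/
def cnt (n κ μ : ℕ) : ℕ := Fintype.card {σ : YI n ≃ XI n // Good κ μ σ}

lemma be_sq_le (t : ℕ) : (be t / 4 ^ t) ^ 2 ≤ 1 := by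
  have h := half_even t
  have hAt : AA (2 * t) t = be t ^ 2 := by
    unfold AA
    have : 2 * t - t = t := by omega
    rw [this, sq]
  rw [hAt] at h
  have hpos : 0 ≤ ∑ l ∈ range t, AA (2 * t) l := Finset.sum_nonneg fun l _ => (AA_pos _ _).le
  have h2 : be t ^ 2 ≤ (4 ^ t) ^ 2 := by
    have : ((4 : ℚ) ^ t) ^ 2 = 4 ^ (2 * t) := by rw [← pow_mul, mul_comm]
    rw [this]; linarith
  rw [div_pow, div_le_one (by positivity)]
  exact h2

theorem cnt_43 (t : ℕ) : (cnt (4 * t + 3) (2 * t + 1) (2 * t) : ℚ) =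
    2 ^ ((4 * t + 3) * (4 * t + 4) / 2) *
      ((2 * t + 1) / 4 * (be t / 4 ^ t) * (be (t + 1) / 4 ^ (t + 1))) := by
  have h := card_good_eq (N := 2 * (2 * t + 1)) (κ := 2 * t + 1) (μ := 2 * t) (by omega) (by omega)
  rw [ratio_43 t] at h
  have b0 := be_pos t
  have b1 := be_pos (t + 1)
  rw [abs_of_nonneg (by positivity)] at h
  have e : 2 * (2 * t + 1) + 1 = 4 * t + 3 := by ring
  have e2 : 2 * (2 * t + 1) + 2 = 4 * t + 4 := by ring
  unfold cnt
  rw [← e, ← e2]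
  exact h

theorem cnt_41 (t : ℕ) (ht : 1 ≤ t) : (cnt (4 * t + 1) (2 * t) (2 * t - 1) : ℚ) =
    2 ^ ((4 * t + 1) * (4 * t + 2) / 2) *
      ((2 * t + 1) / 4 * (be t / 4 ^ t) ^ 2 * (1 - (be t / 4 ^ t) ^ 2)) := by
  have h := card_good_eq (N := 2 * (2 * t)) (κ := 2 * t) (μ := 2 * t - 1) (by omega) (by omega)
  have e1 : 2 * t - 1 + 1 = 2 * t := by omega
  have e2 : 2 * t - 1 + 2 = 2 * t + 1 := by omega
  rw [e1, e2, ratio_41 t ht] at h
  have b0 := be_pos t
  have b1 := be_sq_le t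
  have b2 : 0 ≤ 1 - (be t / 4 ^ t) ^ 2 := by linarith
  rw [abs_of_nonneg (by positivity)] at h
  have e : 2 * (2 * t) + 1 = 4 * t + 1 := by ring
  have e3 : 2 * (2 * t) + 2 = 4 * t + 2 := by ring
  unfold cnt
  rw [← e, ← e3]
  exact h

theorem cnt_42 (t : ℕ) : (cnt (4 * t + 2) (2 * t) (2 * t) : ℚ) =
    2 ^ ((4 * t + 2) * (4 * t + 3) / 2) * ((2 * t + 1) / 4 * (be t / 4 ^ t) ^ 2) := by
  have h := card_good_eq (N := 2 * (2 * t) + 1) (κ := 2 * t) (μ := 2 * t) (by omega) (by omega)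
  rw [ratio_42 t] at h
  have b0 := be_pos t
  rw [abs_of_nonneg (by positivity)] at h
  have e : 2 * (2 * t) + 1 + 1 = 4 * t + 2 := by ring
  have e3 : 2 * (2 * t) + 1 + 2 = 4 * t + 3 := by ring
  unfold cnt
  rw [← e, ← e3]
  exact h

theorem cnt_40 (t : ℕ) : (cnt (4 * t + 4) (2 * t + 1) (2 * t + 1) : ℚ) =
    2 ^ ((4 * t + 4) * (4 * t + 5) / 2) *
      ((t + 1) / 2 * (be (t + 1) / 4 ^ (t + 1)) ^ 2 * (1 + (be (t + 1) / 4 ^ (t + 1)) ^ 2)) := by
  have h := card_good_eq (N := 2 * (2 * t + 1) + 1) (κ := 2 * t + 1) (μ := 2 * t + 1)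
    (by omega) (by omega)
  rw [ratio_40 t] at h
  have b0 := be_pos (t + 1)
  rw [abs_of_nonneg (by positivity)] at h
  have e : 2 * (2 * t + 1) + 1 + 1 = 4 * t + 4 := by ring
  have e3 : 2 * (2 * t + 1) + 1 + 2 = 4 * t + 5 := by ring
  unfold cnt
  rw [← e, ← e3]
  exact h

end Pool.Agent.Work.MP_b90a94_co
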