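import Mathlib
import Pool.Agent.Work.MP_b90a94_co.Defs
import Pool.Agent.Work.MP_b90a94_co.Sums

/-! From tilings to matchings of the layered graph. -/

namespace Pool.Agent.Work.MP_b90a94_co

def AdjZ (p q : ℤ × ℤ) : Prop :=
  (p.1 = q.1 ∧ (p.2 = q.2 + 1 ∨ p.2 + 1 = q.2)) ∨ (p.2 = q.2 ∧ (p.1 = q.1 + 1 ∨ p.1 + 1 = q.1))

lemma AdjZ.symm {p q : ℤ × ℤ} (h : AdjZ p q) : AdjZ q p := by
  unfold AdjZ at *; omega

lemma isDomino_of_adj {p q : ℤ × ℤ} (h : AdjZ p q) : IsDomino {p, q} := by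
  obtain ⟨px, py⟩ := p
  obtain ⟨qx, qy⟩ := q
  simp only [AdjZ] at h
  rcases h with ⟨h1, h2 | h2⟩ | ⟨h1, h2 | h2⟩
  · subst h1 h2
    exact ⟨px, qy, Or.inr (Set.pair_comm _ _)⟩
  · subst h1 h2
    exact ⟨px, py, Or.inr rfl⟩
  · subst h1 h2
    exact ⟨qx, py, Or.inl (Set.pair_comm _ _)⟩
  · subst h1 h2
    exact ⟨px, py, Or.inl rfl⟩

lemma domino_pair {d : Set (ℤ × ℤ)} (h : IsDomino d) {c : ℤ × ℤ} (hc : c ∈ d) :
    ∃ q, d = {c, q} ∧ AdjZ c q := by
  obtain ⟨x, y, rfl | rfl⟩ := h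
  · rcases hc with rfl | hc
    · exact ⟨(x + 1, y), rfl, by simp [AdjZ]⟩
    · rw [Set.mem_singleton_iff] at hc
      subst hc
      exact ⟨(x, y), Set.pair_comm _ _, by simp [AdjZ]⟩
  · rcases hc with rfl | hc
    · exact ⟨(x, y + 1), rfl, by simp [AdjZ]⟩
    · rw [Set.mem_singleton_iff] at hc
      subst hc
      exact ⟨(x, y), Set.pair_comm _ _, by simp [AdjZ]⟩

lemma AdjZ.parity {p q : ℤ × ℤ} (h : AdjZ p q) : (Even (p.1 + p.2) ↔ ¬ Even (q.1 + q.2)) := by
  unfold AdjZ at h
  rw [Int.even_iff, Int.even_iff]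
  omega

section General

variable {I J : Type*} (b : I → ℤ × ℤ) (a : J → ℤ × ℤ) (y1 : I) (x1 : J)

/-- the tiling attached to a matching -/
def tilingOf (σ : I ≃ J) : Set (Set (ℤ × ℤ)) := {d | ∃ i, i ≠ y1 ∧ d = {b i, a (σ i)}}

variable {b a y1 x1}

theorem tiling_bij (hb : Function.Injective b) (ha : Function.Injective a) (e : Prop)
    (hbe : ∀ i, (Even ((b i).1 + (b i).2) ↔ e)) (hae : ∀ j, (Even ((a j).1 + (a j).2) ↔ ¬ e))
    (R : Set (ℤ × ℤ)) (hR : ∀ c, c ∈ R ↔ (∃ i, i ≠ y1 ∧ b i = c) ∨ (∃ j, j ≠ x1 ∧ a j = c)) :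
    Set.ncard {P | IsTiling R P} =
      Nat.card {σ : I ≃ J // σ y1 = x1 ∧ ∀ i, i ≠ y1 → AdjZ (b i) (a (σ i))} := by
  have hne : ∀ i j, b i ≠ a j := by
    intro i j h
    have h1 := hbe i
    have h2 := hae j
    rw [h] at h1
    by_cases he : e <;> simp_all
  have key : ∀ (σ : I ≃ J), (σ y1 = x1 ∧ ∀ i, i ≠ y1 → AdjZ (b i) (a (σ i))) →
      IsTiling R (tilingOf b a y1 σ) := by
    rintro σ ⟨h1, h2⟩
    refine ⟨?_, ?_, ?_⟩
    · rintro d ⟨i, hi, rfl⟩
      exact isDomino_of_adj (h2 i hi)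
    · rintro d ⟨i, hi, rfl⟩ d' ⟨i', hi', rfl⟩ hdd
      have hii : i ≠ i' := by rintro rfl; exact hdd rfl
      rw [Function.onFun, id, id, Set.disjoint_left]
      rintro c (rfl | hc) (hc' | hc')
      · exact hii (hb hc')
      · exact hne _ _ hc'
      · rw [Set.mem_singleton_iff] at hc
        rw [hc] at hc'
        exact hne _ _ hc'.symm
      · rw [Set.mem_singleton_iff] at hc hc'
        rw [hc] at hc'
        exact hii (σ.injective (ha hc'))
    · ext c
      rw [Set.mem_sUnion, hR]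
      constructor
      · rintro ⟨d, ⟨i, hi, rfl⟩, (rfl | hc)⟩
        · exact Or.inl ⟨i, hi, rfl⟩
        · rw [Set.mem_singleton_iff] at hc
          refine Or.inr ⟨σ i, ?_, hc.symm⟩
          rw [← h1]
          exact fun h => hi (σ.injective h)
      · rintro (⟨i, hi, rfl⟩ | ⟨j, hj, rfl⟩)
        · exact ⟨_, ⟨i, hi, rfl⟩, Or.inl rfl⟩
        · refine ⟨{b (σ.symm j), a j}, ⟨σ.symm j, ?_, by simp⟩, Or.inr rfl⟩
          intro h
          apply hj
          rw [← h1, ← h]; simp
  let F : {σ : I ≃ J // σ y1 = x1 ∧ ∀ i, i ≠ y1 → AdjZ (b i) (a (σ i))} →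
      {P | IsTiling R P} := fun σ => ⟨tilingOf b a y1 σ.1, key σ.1 σ.2⟩
  have hF : Function.Bijective F := by
    constructor
    · rintro ⟨σ, h1, h2⟩ ⟨τ, h3, h4⟩ h
      have h5 : tilingOf b a y1 σ = tilingOf b a y1 τ := congrArg Subtype.val h
      apply Subtype.ext
      apply Equiv.ext
      intro i
      by_cases hi : i = y1
      · rw [hi]; exact h1.trans h3.symm
      · have h6 : ({b i, a (σ i)} : Set (ℤ × ℤ)) ∈ tilingOf b a y1 τ := by
          rw [← h5]; exact ⟨i, hi, rfl⟩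
        obtain ⟨i', hi', h7⟩ := h6
        have h8 : b i ∈ ({b i', a (τ i')} : Set (ℤ × ℤ)) := by rw [← h7]; exact Or.inl rfl
        have h9 : i = i' := by
          rcases h8 with h8 | h8
          · exact hb h8
          · exact absurd h8 (hne _ _)
        subst h9
        have h10 : a (σ i) ∈ ({b i, a (τ i)} : Set (ℤ × ℤ)) := by rw [← h7]; exact Or.inr rfl
        rcases h10 with h10 | h10
        · exact absurd h10.symm (hne _ _)
        · exact ha h10
    · rintro ⟨P, hP⟩
      obtain ⟨hP1, hP2, hP3⟩ := hP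
      have hsub : ∀ d ∈ P, ∀ c ∈ d, c ∈ R := by
        intro d hd c hc
        rw [← hP3]; exact ⟨d, hd, hc⟩
      have huniq : ∀ d ∈ P, ∀ d' ∈ P, ∀ c, c ∈ d → c ∈ d' → d = d' := by
        intro d hd d' hd' c hc hc'
        by_contra hne'
        have := hP2 hd hd' hne'
        rw [Function.onFun, id, id, Set.disjoint_left] at this
        exact this hc hc'
      have hf : ∀ i, i ≠ y1 → ∃ j, j ≠ x1 ∧ ({b i, a j} : Set (ℤ × ℤ)) ∈ P ∧ AdjZ (b i) (a j) := by
        intro i hi
        have h1 : b i ∈ R := (hR _).2 (Or.inl ⟨i, hi, rfl⟩)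
        rw [← hP3] at h1
        obtain ⟨d, hd, hbd⟩ := h1
        obtain ⟨q, hq, hadj⟩ := domino_pair (hP1 d hd) hbd
        have hqR : q ∈ R := hsub d hd q (by rw [hq]; exact Or.inr rfl)
        rcases (hR q).1 hqR with ⟨i', _, rfl⟩ | ⟨j, hj, rfl⟩
        · exfalso
          have := hadj.parity
          rw [hbe, hbe] at this
          tauto
        · exact ⟨j, hj, by rw [← hq]; exact hd, hadj⟩
      classical
      have : Nonempty J := ⟨x1⟩
      choose! f hf1 hf2 hf3 using hf
      let g : I → J := fun i => if i = y1 then x1 else f i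
      have hg : Function.Bijective g := by
        constructor
        · intro i i' h
          simp only [g] at h
          split_ifs at h with h1 h2 h2
          · rw [h1, h2]
          · exact absurd h.symm (hf1 i' h2)
          · exact absurd h (hf1 i h1)
          · have h3 := hf2 i h1
            have h4 := hf2 i' h2
            rw [← h] at h4
            have h5 := huniq _ h3 _ h4 (a (f i)) (Or.inr rfl) (Or.inr rfl)
            have h6 : b i ∈ ({b i', a (f i)} : Set (ℤ × ℤ)) := by rw [← h5]; exact Or.inl rfl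
            rcases h6 with h6 | h6
            · exact hb h6
            · exact absurd h6 (hne _ _)
        · intro j
          by_cases hj : j = x1
          · exact ⟨y1, by simp [g, hj]⟩
          · have h1 : a j ∈ R := (hR _).2 (Or.inr ⟨j, hj, rfl⟩)
            rw [← hP3] at h1
            obtain ⟨d, hd, had⟩ := h1
            obtain ⟨q, hq, hadj⟩ := domino_pair (hP1 d hd) had
            have hqR : q ∈ R := hsub d hd q (by rw [hq]; exact Or.inr rfl)
            rcases (hR q).1 hqR with ⟨i, hi, rfl⟩ | ⟨j', _, rfl⟩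
            · refine ⟨i, ?_⟩
              simp only [g, if_neg hi]
              have h3 := hf2 i hi
              have h5 := huniq _ h3 _ hd (b i) (Or.inl rfl) (by rw [hq]; exact Or.inr rfl)
              have h6 : a j ∈ ({b i, a (f i)} : Set (ℤ × ℤ)) := by rw [h5]; exact had
              rcases h6 with h6 | h6
              · exact absurd h6.symm (hne _ _)
              · exact (ha h6).symm
            · exfalso
              have := hadj.parity
              rw [hae, hae] at this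
              tauto
      have hgy : g y1 = x1 := by simp [g]
      have hgi : ∀ i, i ≠ y1 → g i = f i := fun i hi => by simp [g, hi]
      refine ⟨⟨Equiv.ofBijective g hg, hgy, fun i hi => ?_⟩, ?_⟩
      · rw [Equiv.ofBijective_apply, hgi i hi]
        exact hf3 i hi
      · apply Subtype.ext
        show tilingOf b a y1 (Equiv.ofBijective g hg) = P
        ext d
        constructor
        · rintro ⟨i, hi, rfl⟩
          rw [Equiv.ofBijective_apply, hgi i hi]
          exact hf2 i hi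
        · intro hd
          have hmem : ∃ i, i ≠ y1 ∧ b i ∈ d := by
            obtain ⟨x, y, hxy⟩ := hP1 d hd
            have hne' : ∃ c, c ∈ d := by
              rcases hxy with rfl | rfl
              · exact ⟨(x, y), Or.inl rfl⟩
              · exact ⟨(x, y), Or.inl rfl⟩
            obtain ⟨c, hc⟩ := hne'
            obtain ⟨q, hq, hadj⟩ := domino_pair (hP1 d hd) hc
            have hqd : q ∈ d := by rw [hq]; exact Or.inr rfl
            rcases (hR c).1 (hsub d hd c hc) with ⟨i, hi, rfl⟩ | ⟨j, hj, rfl⟩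
            · exact ⟨i, hi, hc⟩
            · rcases (hR q).1 (hsub d hd q hqd) with ⟨i, hi, rfl⟩ | ⟨j', _, rfl⟩
              · exact ⟨i, hi, hqd⟩
              · exfalso
                have := hadj.parity
                rw [hae, hae] at this
                tauto
          obtain ⟨i, hi, hid⟩ := hmem
          refine ⟨i, hi, ?_⟩
          rw [Equiv.ofBijective_apply, hgi i hi]
          exact huniq _ hd _ (hf2 i hi) (b i) hid (Or.inl rfl)
  rw [← Nat.card_coe_set_eq]
  exact (Nat.card_congr (Equiv.ofBijective F hF)).symm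

end General

/-! ### coordinates -/

lemma mem_aztec_iff (n : ℕ) (c : ℤ × ℤ) : c ∈ aztec n ↔
    (c.1 + c.2 + 1 ≤ n ∧ -(n : ℤ) ≤ c.1 + c.2 + 1 ∧ c.1 - c.2 ≤ n ∧ -(n : ℤ) ≤ c.1 - c.2) := by
  unfold aztec
  rw [Set.mem_ofPred_eq]
  have e1 : |(c.1 : ℚ) + 1 / 2| + |(c.2 : ℚ) + 1 / 2| ≤ n ↔
      |2 * (c.1 : ℚ) + 1| + |2 * (c.2 : ℚ) + 1| ≤ 2 * n := by
    have h1 : |2 * (c.1 : ℚ) + 1| = 2 * |(c.1 : ℚ) + 1 / 2| := by
      rw [show 2 * (c.1 : ℚ) + 1 = 2 * ((c.1 : ℚ) + 1 / 2) by ring, abs_mul]; norm_num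
    have h2 : |2 * (c.2 : ℚ) + 1| = 2 * |(c.2 : ℚ) + 1 / 2| := by
      rw [show 2 * (c.2 : ℚ) + 1 = 2 * ((c.2 : ℚ) + 1 / 2) by ring, abs_mul]; norm_num
    rw [h1, h2]
    constructor <;> intro h <;> linarith
  rw [e1]
  have e2 : |2 * (c.1 : ℚ) + 1| + |2 * (c.2 : ℚ) + 1| ≤ 2 * n ↔
      |2 * c.1 + 1| + |2 * c.2 + 1| ≤ 2 * (n : ℤ) := by
    have : ((|2 * c.1 + 1| + |2 * c.2 + 1| : ℤ) : ℚ) = |2 * (c.1 : ℚ) + 1| + |2 * (c.2 : ℚ) + 1| := by
      push_cast; ring
    rw [← this]
    have h3 : (2 * (n : ℚ)) = ((2 * (n : ℤ) : ℤ) : ℚ) := by push_cast; ring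
    rw [h3]
    exact Int.cast_le
  rw [e2]
  generalize c.1 = x
  generalize c.2 = y
  rcases abs_cases (2 * x + 1) with ⟨h1, _⟩ | ⟨h1, _⟩ <;>
    rcases abs_cases (2 * y + 1) with ⟨h2, _⟩ | ⟨h2, _⟩ <;> rw [h1, h2] <;> omega

/-- cells, even order -/
def fX0 (n : ℕ) (x : XI n) : ℤ × ℤ := (-(n : ℤ) + x.2.val + x.1.val, (x.2.val : ℤ) - x.1.val)
def fY0 (n : ℕ) (y : YI n) : ℤ × ℤ := (-(n : ℤ) + y.2.val + y.1.val, (y.2.val : ℤ) - y.1.val - 1)

/-- cells, odd order -/
def fX1 (n : ℕ) (x : XI n) : ℤ × ℤ := ((n : ℤ) - 1 - x.2.val - x.1.val, (x.1.val : ℤ) - x.2.val - 1)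
def fY1 (n : ℕ) (y : YI n) : ℤ × ℤ := ((n : ℤ) - 1 - y.2.val - y.1.val, (y.1.val : ℤ) - y.2.val)

lemma mem_knight_iff (n : ℕ) (c : ℤ × ℤ) : c ∈ knightRegion n ↔
    ((c.1 + c.2 + 1 ≤ n ∧ -(n : ℤ) ≤ c.1 + c.2 + 1 ∧ c.1 - c.2 ≤ n ∧ -(n : ℤ) ≤ c.1 - c.2) ∧
      ¬ (c.1 = -1 ∧ c.2 = -1) ∧ ¬ (c.1 = 0 ∧ c.2 = 1)) := by
  unfold knightRegion
  rw [Set.mem_sdiff, mem_aztec_iff, Set.mem_insert_iff, Set.mem_singleton_iff]
  simp only [Prod.ext_iff]
  tauto

theorem T_even (m : ℕ) (hm : 1 ≤ m) : T (2 * m) = cnt (2 * m) (m - 1) (m - 1) := by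
  unfold T cnt
  rw [← Nat.card_eq_fintype_card]
  have hY : Function.Injective (fY0 (2 * m)) := by
    intro y y' h
    simp only [fY0, Prod.mk.injEq] at h
    refine Prod.ext (Fin.ext ?_) (Fin.ext ?_) <;> omega
  have hX : Function.Injective (fX0 (2 * m)) := by
    intro y y' h
    simp only [fX0, Prod.mk.injEq] at h
    refine Prod.ext (Fin.ext ?_) (Fin.ext ?_) <;> omega
  set y1 : YI (2 * m) := (⟨m - 1, by omega⟩, ⟨m - 1 + 2, by omega⟩) with hy1
  set x1 : XI (2 * m) := (⟨m - 1 + 1, by omega⟩, ⟨m - 1, by omega⟩) with hx1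
  have hy1' : ∀ y : YI (2 * m), y ≠ y1 ↔ ¬ (y.1.val = m - 1 ∧ y.2.val = m - 1 + 2) := by
    intro y
    rw [Ne, hy1, Prod.ext_iff, Fin.ext_iff, Fin.ext_iff]
  have hx1' : ∀ x : XI (2 * m), x ≠ x1 ↔ ¬ (x.1.val = m - 1 + 1 ∧ x.2.val = m - 1) := by
    intro x
    rw [Ne, hx1, Prod.ext_iff, Fin.ext_iff, Fin.ext_iff]
  rw [tiling_bij (b := fY0 (2 * m)) (a := fX0 (2 * m)) (y1 := y1) (x1 := x1) hY hX False
    (by intro y; simp only [fY0, Int.even_iff, iff_false]; push_cast; omega)
    (by intro x; simp only [fX0, Int.even_iff, not_false_eq_true, iff_true]; push_cast; omega)]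
  · apply Nat.card_congr
    apply Equiv.subtypeEquivRight
    intro σ
    unfold Good
    constructor
    · rintro ⟨h1, h2⟩ y
      by_cases hy : y = y1
      · left
        rw [hy, h1]
        exact ⟨rfl, rfl, rfl, rfl⟩
      · right
        refine ⟨(hy1' y).1 hy, ?_⟩
        have := h2 y hy
        simp only [AdjZ, fY0, fX0] at this
        unfold Adj
        omega
    · intro h
      refine ⟨?_, ?_⟩
      · rcases h y1 with ⟨_, _, h3, h4⟩ | ⟨h0, _⟩
        · exact Prod.ext (Fin.ext h3) (Fin.ext h4)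
        · exact absurd ⟨rfl, rfl⟩ h0
      · intro y hy
        have hy' := (hy1' y).1 hy
        rcases h y with ⟨h3, h4, _, _⟩ | ⟨_, h5⟩
        · exact absurd ⟨h3, h4⟩ hy'
        · unfold Adj at h5
          simp only [AdjZ, fY0, fX0]
          omega
  · intro c
    rw [mem_knight_iff]
    obtain ⟨p, q⟩ := c
    simp only
    constructor
    · rintro ⟨⟨h1, h2, h3, h4⟩, h5, h6⟩
      push_cast at h1 h2 h3 h4
      rcases Int.emod_two_eq_zero_or_one (p + q) with h7 | h7
      · -- even sum: class X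
        right
        refine ⟨(⟨((p - q + 2 * m) / 2).toNat, by omega⟩, ⟨((p + q + 2 * m) / 2).toNat, by omega⟩),
          ?_, ?_⟩
        · rw [hx1']
          simp only
          omega
        · simp only [fX0, Prod.mk.injEq]
          push_cast
          omega
      · left
        refine ⟨(⟨((p - q + 2 * m - 1) / 2).toNat, by omega⟩,
          ⟨((p + q + 2 * m + 1) / 2).toNat, by omega⟩), ?_, ?_⟩
        · rw [hy1']
          simp only
          omega
        · simp only [fY0, Prod.mk.injEq]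
          push_cast
          omega
    · rintro (⟨y, hy, h⟩ | ⟨x, hx, h⟩)
      · rw [hy1'] at hy
        simp only [fY0, Prod.mk.injEq] at h
        have := y.1.isLt
        have := y.2.isLt
        push_cast at *
        omega
      · rw [hx1'] at hx
        simp only [fX0, Prod.mk.injEq] at h
        have := x.1.isLt
        have := x.2.isLt
        push_cast at *
        omega

theorem T_odd (m : ℕ) (hm : 1 ≤ m) : T (2 * m + 1) = cnt (2 * m + 1) m (m - 1) := by
  unfold T cnt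
  rw [← Nat.card_eq_fintype_card]
  have hY : Function.Injective (fY1 (2 * m + 1)) := by
    intro y y' h
    simp only [fY1, Prod.mk.injEq] at h
    refine Prod.ext (Fin.ext ?_) (Fin.ext ?_) <;> omega
  have hX : Function.Injective (fX1 (2 * m + 1)) := by
    intro y y' h
    simp only [fX1, Prod.mk.injEq] at h
    refine Prod.ext (Fin.ext ?_) (Fin.ext ?_) <;> omega
  set y1 : YI (2 * m + 1) := (⟨m, by omega⟩, ⟨m - 1 + 2, by omega⟩) with hy1
  set x1 : XI (2 * m + 1) := (⟨m + 1, by omega⟩, ⟨m - 1, by omega⟩) with hx1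
  have hy1' : ∀ y : YI (2 * m + 1), y ≠ y1 ↔ ¬ (y.1.val = m ∧ y.2.val = m - 1 + 2) := by
    intro y
    rw [Ne, hy1, Prod.ext_iff, Fin.ext_iff, Fin.ext_iff]
  have hx1' : ∀ x : XI (2 * m + 1), x ≠ x1 ↔ ¬ (x.1.val = m + 1 ∧ x.2.val = m - 1) := by
    intro x
    rw [Ne, hx1, Prod.ext_iff, Fin.ext_iff, Fin.ext_iff]
  rw [tiling_bij (b := fY1 (2 * m + 1)) (a := fX1 (2 * m + 1)) (y1 := y1) (x1 := x1) hY hX True
    (by intro y; simp only [fY1, Int.even_iff, iff_true]; push_cast; omega)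
    (by intro x; simp only [fX1, Int.even_iff, not_true_eq_false, iff_false]; push_cast; omega)]
  · apply Nat.card_congr
    apply Equiv.subtypeEquivRight
    intro σ
    unfold Good
    constructor
    · rintro ⟨h1, h2⟩ y
      by_cases hy : y = y1
      · left
        rw [hy, h1]
        exact ⟨rfl, rfl, rfl, rfl⟩
      · right
        refine ⟨(hy1' y).1 hy, ?_⟩
        have := h2 y hy
        simp only [AdjZ, fY1, fX1] at this
        unfold Adj
        omega
    · intro h
      refine ⟨?_, ?_⟩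
      · rcases h y1 with ⟨_, _, h3, h4⟩ | ⟨h0, _⟩
        · exact Prod.ext (Fin.ext h3) (Fin.ext h4)
        · exact absurd ⟨rfl, rfl⟩ h0
      · intro y hy
        have hy' := (hy1' y).1 hy
        rcases h y with ⟨h3, h4, _, _⟩ | ⟨_, h5⟩
        · exact absurd ⟨h3, h4⟩ hy'
        · unfold Adj at h5
          simp only [AdjZ, fY1, fX1]
          omega
  · intro c
    rw [mem_knight_iff]
    obtain ⟨p, q⟩ := c
    simp only
    constructor
    · rintro ⟨⟨h1, h2, h3, h4⟩, h5, h6⟩
      push_cast at h1 h2 h3 h4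
      rcases Int.emod_two_eq_zero_or_one (p + q) with h7 | h7
      · -- even sum: class Y
        left
        refine ⟨(⟨((2 * m - (p - q)) / 2).toNat, by omega⟩,
          ⟨((2 * m - (p + q)) / 2).toNat, by omega⟩), ?_, ?_⟩
        · rw [hy1']
          simp only
          omega
        · simp only [fY1, Prod.mk.injEq]
          push_cast
          omega
      · right
        refine ⟨(⟨((2 * m + 1 - (p - q)) / 2).toNat, by omega⟩,
          ⟨((2 * m - 1 - (p + q)) / 2).toNat, by omega⟩), ?_, ?_⟩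
        · rw [hx1']
          simp only
          omega
        · simp only [fX1, Prod.mk.injEq]
          push_cast
          omega
    · rintro (⟨y, hy, h⟩ | ⟨x, hx, h⟩)
      · rw [hy1'] at hy
        simp only [fY1, Prod.mk.injEq] at h
        have := y.1.isLt
        have := y.2.isLt
        push_cast at *
        omega
      · rw [hx1'] at hx
        simp only [fX1, Prod.mk.injEq] at h
        have := x.1.isLt
        have := x.2.isLt
        push_cast at *
        omega

end Pool.Agent.Work.MP_b90a94_co
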